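import Pool.Agent.H850.MT.Zar
import Pool.Graph.R_pool_sql_team_seeded_2aa45f1a.Q69.MTQ.Fin

/-!
# Tate classes and two elements
-/

set_option autoImplicit false
set_option linter.unusedSectionVars false

namespace Pool.Agent.H850.MT2

open Pool.Agent.H850.TF Pool.Agent.H850.RG Module TensorProduct Topology
open Pool.Agent.W516.MTD Pool.Agent.H204R3.GP

section fix

variable {n m : ℕ} {p : ℕ} [Fact p.Prime] {Γ : Type} [Group Γ] {V : Type} [AddCommGroup V]
  [Module ℚ_[p] V] {b : Basis (Fin n) ℚ_[p] V} {ρ : Γ →* GL (Fin n) ℤ_[p]} {χ : Γ → ℚ_[p]}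
  {J J' : Matrix (Fin n) (Fin n) ℚ_[p]}

/-- forms fixed by two dense elements are fixed by the group -/
theorem ZD.fixed {x y : Γ} (h : ZD ρ x y) (hχ : ∀ σ, χ σ ≠ 0) (hJ : J' * J = 1)
    (hρJ : ∀ σ, (TF.rat ρ σ).transpose * J * TF.rat ρ σ = χ σ • J)
    {φ : MultilinearMap ℚ_[p] (fun _ : Fin m × Fin 2 => V) ℚ_[p]} (hx : FixedBy b ρ χ φ x)
    (hy : FixedBy b ρ χ φ y) (σ : Γ) : FixedBy b ρ χ φ σ := by
  unfold FixedBy at hx hy ⊢
  rw [fixed_iff b, fixed_iff_commute (hχ _) hJ (hρJ _)] at hx hy ⊢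
  exact h.commute hx hy σ

/-- an endomorphism commuting with two dense elements commutes with the group -/
theorem ZD.endo {x y : Γ} (h : ZD ρ x y) {Q : Matrix (Fin n) (Fin n) ℚ_[p]}
    (hx : Q * TF.rat ρ x = TF.rat ρ x * Q) (hy : Q * TF.rat ρ y = TF.rat ρ y * Q) (u : Γ) :
    Q * TF.rat ρ u = TF.rat ρ u * Q := by
  have h1 := h.commute (m := 1) (N := tpf 1 Q) (by rw [← tpf_mul, hx, tpf_mul])
    (by rw [← tpf_mul, hy, tpf_mul]) u
  rw [← tpf_mul, ← tpf_mul] at h1
  ext i j
  have h2 := congrFun (congrFun h1 fun _ => i) fun _ => j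
  rw [tpf_apply, tpf_apply, Finset.prod_const, Finset.prod_const, Finset.card_univ,
    Fintype.card_fin, pow_one, pow_one] at h2
  exact h2

variable [TopologicalSpace Γ] [IsTopologicalGroup Γ] [CompactSpace Γ]

/-- forms fixed by a subgroup of finite index are fixed by the group -/
theorem fixed_of_finiteIndex (hρ : Continuous fun σ => (ρ σ : Matrix (Fin n) (Fin n) ℤ_[p]))
    (hc : ∀ σ, σ ∈ conn ρ) (hχ : ∀ σ, χ σ ≠ 0) (hJ : J' * J = 1)
    (hρJ : ∀ σ, (TF.rat ρ σ).transpose * J * TF.rat ρ σ = χ σ • J)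
    {φ : MultilinearMap ℚ_[p] (fun _ : Fin m × Fin 2 => V) ℚ_[p]} (Δ : Subgroup Γ)
    (hΔ : Δ.FiniteIndex) (h : ∀ s ∈ Δ, FixedBy b ρ χ φ s) (σ : Γ) : FixedBy b ρ χ φ σ := by
  unfold FixedBy at h ⊢
  rw [fixed_iff b, fixed_iff_commute (hχ _) hJ (hρJ _)]
  have h1 : ∀ s ∈ Δ, (tpf m J' * fmat b φ) * tpf m (TF.rat ρ s) =
      tpf m (TF.rat ρ s) * (tpf m J' * fmat b φ) := by
    intro s hs
    have h2 := h s hs
    rw [fixed_iff b, fixed_iff_commute (hχ _) hJ (hρJ _)] at h2
    exact h2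
  set N := tpf m J' * fmat b φ
  have key : ∀ z, N * tpf m (TF.rat ρ z) = tpf m (TF.rat ρ z) * N ↔
      Commute (TF.rat (tp m ρ) z)
        (Matrix.reindexAlgEquiv ℚ_[p] ℚ_[p] finFunctionFinEquiv N) := by
    intro z
    have h1 : TF.rat (tp m ρ) z = Matrix.reindexAlgEquiv ℚ_[p] ℚ_[p] finFunctionFinEquiv
        (tpf m (TF.rat ρ z)) := rat_tp m ρ z
    rw [h1]
    unfold Commute SemiconjBy
    rw [← map_mul, ← map_mul]
    constructor
    · intro h2
      rw [h2]
    · intro h2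
      exact ((Matrix.reindexAlgEquiv ℚ_[p] ℚ_[p] finFunctionFinEquiv).injective h2).symm
  rw [key]
  set X := Matrix.reindexAlgEquiv ℚ_[p] ℚ_[p] finFunctionFinEquiv N with hX
  -- the closure of the subgroup is open
  have hcont : Continuous fun σ => TF.rat (tp m ρ) σ :=
    continuous_toQ.comp (continuous_tp m hρ)
  have hclosed : IsClosed {σ : Γ | Commute (TF.rat (tp m ρ) σ) X} :=
    isClosed_eq (hcont.mul continuous_const) (continuous_const.mul hcont)
  have hsub : ((Δ.topologicalClosure : Subgroup Γ) : Set Γ) ⊆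
      {σ : Γ | Commute (TF.rat (tp m ρ) σ) X} := by
    rw [Subgroup.topologicalClosure_coe]
    exact hclosed.closure_subset_iff.2 fun s hs => (key s).1 (h1 s hs)
  have hfi : (Δ.topologicalClosure).FiniteIndex :=
    Subgroup.finiteIndex_of_le Δ.le_topologicalClosure
  have hopen : IsOpen ((Δ.topologicalClosure : Subgroup Γ) : Set Γ) :=
    Subgroup.isOpen_of_isClosed_of_finiteIndex _ Δ.isClosed_topologicalClosure
  have hct : ConnOn ρ ⊤ := fun D hD V hV hDV u _ =>
    connOn_conn ρ D hD V hV hDV u (hc u)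
  exact commute_of_open (connOn_tp m hct) hopen (fun v hv => hsub hv) σ

end fix

section basis

variable {n : ℕ} {p : ℕ} [Fact p.Prime] {Γ : Type} [Group Γ] {V : Type} [AddCommGroup V]
  [Module ℚ_[p] V] (b : Basis (Fin n) ℚ_[p] V) {ρ : Γ →* GL (Fin n) ℤ_[p]}

theorem equivFun_toLin (A : Matrix (Fin n) (Fin n) ℚ_[p]) (u : V) :
    b.equivFun (Matrix.toLin b b A u) = A.mulVec (b.equivFun u) := by
  have h1 := LinearMap.toMatrix_mulVec_repr b b (Matrix.toLin b b A) u
  rw [LinearMap.toMatrix_toLin] at h1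
  exact h1.symm

/-- semisimplicity in terms of matrices -/
theorem CR_of_semisimple_rep (h : ∀ U : Submodule ℚ_[p] V,
    (∀ s, ∀ u ∈ U, Matrix.toLin b b (TF.rat ρ s) u ∈ U) →
      ∃ U' : Submodule ℚ_[p] V, (∀ s, ∀ u ∈ U', Matrix.toLin b b (TF.rat ρ s) u ∈ U') ∧
        IsCompl U U') : CR (Set.range (TF.rat ρ)) := by
  intro W hW
  obtain ⟨W', hW', hc⟩ := h (W.comap b.equivFun.toLinearMap) (by
    intro s u hu
    rw [Submodule.mem_comap] at hu ⊢
    change b.equivFun (Matrix.toLin b b (TF.rat ρ s) u) ∈ W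
    rw [equivFun_toLin]
    exact hW _ ⟨s, rfl⟩ _ hu)
  refine ⟨W'.map b.equivFun.toLinearMap, ?_, ?_⟩
  · rintro _ ⟨s, rfl⟩ _ ⟨u, hu, rfl⟩
    change (TF.rat ρ s).mulVec (b.equivFun u) ∈ _
    rw [← equivFun_toLin]
    exact ⟨_, hW' s u hu, rfl⟩
  · have h1 := (Submodule.orderIsoMapComap b.equivFun).isCompl hc
    have h2 : (Submodule.orderIsoMapComap b.equivFun) (W.comap b.equivFun.toLinearMap) = W := by
      change (W.comap b.equivFun.toLinearMap).map b.equivFun.toLinearMap = W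
      exact Submodule.map_comap_eq_of_surjective b.equivFun.surjective W
    rw [h2] at h1
    exact h1

/-- the invariance of the form in terms of the matrices -/
theorem pairing_invariant {J A : Matrix (Fin n) (Fin n) ℚ_[p]} {c : ℚ_[p]}
    (h : A.transpose * J * A = c • J) (u v : V) :
    Matrix.toLinearMap₂ b b J (Matrix.toLin b b A u) (Matrix.toLin b b A v) =
      c * Matrix.toLinearMap₂ b b J u v := by
  have h1 : (Matrix.toLinearMap₂ b b J).compl₁₂ (Matrix.toLin b b A) (Matrix.toLin b b A) =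
      c • Matrix.toLinearMap₂ b b J := by
    apply (LinearMap.toMatrix₂ b b).injective
    rw [LinearMap.toMatrix₂_compl₁₂ b b b b, LinearMap.toMatrix_toLin,
      LinearMap.toMatrix₂_toLinearMap₂, map_smul, LinearMap.toMatrix₂_toLinearMap₂, h]
  have h2 := congrArg (fun B : V →ₗ[ℚ_[p]] V →ₗ[ℚ_[p]] ℚ_[p] => B u v) h1
  exact h2

end basis

section more

variable {n : ℕ} {p : ℕ} [Fact p.Prime] {Γ : Type} [Group Γ]

theorem val_mem (ρ : Γ →* GL (Fin n) ℤ_[p]) (P : MvPolynomial (Fin n × Fin n) ℚ_[p]) :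
    (fun σ => MvPolynomial.eval (fun q : Fin n × Fin n => TF.rat ρ σ q.1 q.2) P) ∈ Pol ρ := by
  induction P using MvPolynomial.induction_on with
  | C a =>
    have h1 : (fun σ : Γ => MvPolynomial.eval (fun q : Fin n × Fin n => TF.rat ρ σ q.1 q.2)
        (MvPolynomial.C a)) = algebraMap ℚ_[p] (Γ → ℚ_[p]) a := by
      funext σ
      rw [MvPolynomial.eval_C]
      rfl
    rw [h1]
    exact Subalgebra.algebraMap_mem _ a
  | add P Q hP hQ =>
    have h1 : (fun σ : Γ => MvPolynomial.eval (fun q : Fin n × Fin n => TF.rat ρ σ q.1 q.2)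
        (P + Q)) = (fun σ : Γ => MvPolynomial.eval (fun q : Fin n × Fin n =>
          TF.rat ρ σ q.1 q.2) P) +
          fun σ : Γ => MvPolynomial.eval (fun q : Fin n × Fin n => TF.rat ρ σ q.1 q.2) Q := by
      funext σ
      rw [map_add, Pi.add_apply]
    rw [h1]
    exact Subalgebra.add_mem _ hP hQ
  | mul_X P q hP =>
    have h1 : (fun σ : Γ => MvPolynomial.eval (fun q : Fin n × Fin n => TF.rat ρ σ q.1 q.2)
        (P * MvPolynomial.X q)) = (fun σ : Γ => MvPolynomial.eval (fun q : Fin n × Fin n =>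
          TF.rat ρ σ q.1 q.2) P) * fun σ : Γ => TF.rat ρ σ q.1 q.2 := by
      funext σ
      rw [map_mul, MvPolynomial.eval_X, Pi.mul_apply]
    rw [h1]
    exact Subalgebra.mul_mem _ hP (entry_mem ρ q.1 q.2)

variable {V : Type} [AddCommGroup V] [Module ℚ_[p] V] (b : Basis (Fin n) ℚ_[p] V)

theorem continuous_coeff [TopologicalSpace Γ] {ρ : Γ →* GL (Fin n) ℤ_[p]}
    (hρ : Continuous fun σ => (ρ σ : Matrix (Fin n) (Fin n) ℤ_[p])) (f : V →ₗ[ℚ_[p]] ℚ_[p])
    (v : V) : Continuous fun s => f (Matrix.toLin b b (TF.rat ρ s) v) := by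
  have h1 : (fun s => f (Matrix.toLin b b (TF.rat ρ s) v)) =
      fun s => ∑ i, ((TF.rat ρ s).mulVec (b.equivFun v)) i * f (b i) := by
    funext s
    rw [← equivFun_toLin]
    conv_lhs => rw [← b.sum_equivFun (Matrix.toLin b b (TF.rat ρ s) v)]
    rw [map_sum]
    refine Finset.sum_congr rfl fun i _ => ?_
    rw [map_smul, smul_eq_mul]
  rw [h1]
  have h0 : Continuous fun σ => TF.rat ρ σ := continuous_toQ.comp hρ
  have h2 : Continuous fun σ : Γ => (TF.rat ρ σ).mulVec (b.equivFun v) :=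
    h0.matrix_mulVec continuous_const
  exact continuous_finsetSum _ fun i _ => ((continuous_apply i).comp h2).mul continuous_const

/-- endomorphisms commuting with two dense elements -/
theorem ZD.endo' {ρ : Γ →* GL (Fin n) ℤ_[p]} {x y : Γ} (h : ZD ρ x y) {Q : Module.End ℚ_[p] V}
    (hx : Q * Matrix.toLin b b (TF.rat ρ x) = Matrix.toLin b b (TF.rat ρ x) * Q)
    (hy : Q * Matrix.toLin b b (TF.rat ρ y) = Matrix.toLin b b (TF.rat ρ y) * Q) (u : Γ) :
    Q * Matrix.toLin b b (TF.rat ρ u) = Matrix.toLin b b (TF.rat ρ u) * Q := by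
  have key : ∀ z, Q * Matrix.toLin b b (TF.rat ρ z) = Matrix.toLin b b (TF.rat ρ z) * Q ↔
      LinearMap.toMatrix b b Q * TF.rat ρ z = TF.rat ρ z * LinearMap.toMatrix b b Q := by
    intro z
    have e1 : LinearMap.toMatrix b b (Q * Matrix.toLin b b (TF.rat ρ z)) =
        LinearMap.toMatrix b b Q * TF.rat ρ z := by
      rw [LinearMap.toMatrix_mul, LinearMap.toMatrix_toLin]
    have e2 : LinearMap.toMatrix b b (Matrix.toLin b b (TF.rat ρ z) * Q) =
        TF.rat ρ z * LinearMap.toMatrix b b Q := by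
      rw [LinearMap.toMatrix_mul, LinearMap.toMatrix_toLin]
    rw [← e1, ← e2]
    exact (LinearMap.toMatrix b b).injective.eq_iff.symm
  rw [key] at hx hy ⊢
  exact h.endo hx hy u

end more

section riemann

/-- the matrix of a Riemann form is invertible -/
theorem riemann_nondeg {n : ℕ} {T : Type} [AddCommGroup T] [Module ℂ T]
    {per : (Fin n → ℚ) →+ T} {ω₀ : (Fin n → ℚ) →ₗ[ℚ] (Fin n → ℚ) →ₗ[ℚ] ℚ}
    (hper : IsRationalStructure per) (hR : IsRiemannForm per ω₀) :
    (Matrix.of fun i j : Fin n => ω₀ (Pi.single i 1) (Pi.single j 1)).det ≠ 0 := by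
  intro h0
  obtain ⟨w, hw, hJw⟩ := Matrix.exists_mulVec_eq_zero_iff.2 h0
  obtain ⟨b, b', hb⟩ := hper
  obtain ⟨E, hE, -, -, hpos⟩ := hR
  have hlin : ∀ (x : Fin n → ℚ) (i : Fin n), ω₀ (Pi.single i 1) x =
      ∑ j, (Matrix.of fun i j : Fin n => ω₀ (Pi.single i 1) (Pi.single j 1)) i j * x j := by
    intro x i
    have h1 : x = ∑ j, x j • (Pi.single j (1 : ℚ) : Fin n → ℚ) := by
      ext k
      simp [Finset.sum_apply, Pi.single_apply]
    conv_lhs => rw [h1]
    rw [map_sum]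
    refine Finset.sum_congr rfl fun j _ => ?_
    rw [map_smul, smul_eq_mul, Matrix.of_apply, mul_comm]
  have h1 : ∀ x : Fin n → ℚ, ω₀ x w = 0 := by
    intro x
    have h2 : x = ∑ j, x j • (Pi.single j (1 : ℚ) : Fin n → ℚ) := by
      ext k
      simp [Finset.sum_apply, Pi.single_apply]
    rw [h2, map_sum, LinearMap.sum_apply]
    refine Finset.sum_eq_zero fun j _ => ?_
    rw [map_smul, LinearMap.smul_apply, hlin]
    have h3 := congrFun hJw j
    rw [Matrix.mulVec, dotProduct, Pi.zero_apply] at h3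
    rw [h3, smul_zero]
  -- the real form vanishes
  have h2 : ∀ u : T, E u (per w) = 0 := by
    intro u
    rw [← b'.sum_repr u, map_sum, LinearMap.sum_apply]
    refine Finset.sum_eq_zero fun i _ => ?_
    rw [map_smul, LinearMap.smul_apply, hb, hE, h1]
    simp
  have h3 : per w ≠ 0 := by
    intro h4
    apply hw
    -- the rational structure is injective
    have h5 : w = ∑ i, b.repr w i • b i := (b.sum_repr w).symm
    have h6 : ∑ i, ((b.repr w i : ℚ) : ℝ) • b' i = 0 := by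
      rw [← h4]
      conv_rhs => rw [h5]
      rw [map_sum]
      refine Finset.sum_congr rfl fun i _ => ?_
      rw [hb]
      have h7 : ∀ (c : ℚ) (x : Fin n → ℚ), per (c • x) = (c : ℝ) • per x := by
        intro c x
        let _ : Module ℚ T := Module.compHom T (algebraMap ℚ ℂ)
        have h8 : per (c • x) = c • per x := map_rat_smul per c x
        have h9 : c • per x = ((c : ℝ) : ℂ) • per x := by
          rw [Complex.ofReal_ratCast]
          rfl
        rw [h8, h9, Complex.coe_smul]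
      rw [h7]
    have h7 := linearIndependent_iff'.1 b'.linearIndependent Finset.univ
      (fun i => ((b.repr w i : ℚ) : ℝ)) h6
    apply b.repr.injective
    ext i
    have h8 := h7 i (Finset.mem_univ i)
    rw [map_zero, Finsupp.zero_apply]
    exact_mod_cast h8
  exact (hpos (per w) h3).ne' (h2 _)

end riemann

end Pool.Agent.H850.MT2
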