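import Pool.Agent.H850.MT.Aug

/-!
# Two Frobenius elements at one place are Zariski dense at all primes
-/

set_option autoImplicit false
set_option linter.unusedSectionVars false

namespace Pool.Agent.H850.MT2

open Pool.Agent.H850.TF Pool.Agent.H850.RG MeasureTheory Topology Filter NumberField
  IsDedekindDomain Polynomial
open Pool.Agent.W401.Cheb (GK IsFrob IsInert dens)

section dense

variable {n : ℕ} {p : ℕ} [Fact p.Prime] {Γ : Type} [Group Γ]

/-- the group generated by `x` and `y` is Zariski dense in the image of `ρ` -/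
def ZD (ρ : Γ →* GL (Fin n) ℤ_[p]) (x y : Γ) : Prop :=
  ∀ P : MvPolynomial (Fin n × Fin n) ℚ_[p],
    (∀ g ∈ Subgroup.closure {x, y}, MvPolynomial.eval (fun q => TF.rat ρ g q.1 q.2) P = 0) →
      ∀ u, MvPolynomial.eval (fun q => TF.rat ρ u q.1 q.2) P = 0

theorem ZD_of_dual {ρ : Γ →* GL (Fin n) ℤ_[p]} {x y : Γ} (h : ZD (dual ρ) x y) : ZD ρ x y := by
  intro P hP u
  have key : ∀ g : Γ, MvPolynomial.eval (fun q : Fin n × Fin n => TF.rat (dual ρ) g q.1 q.2)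
      (MvPolynomial.rename Prod.swap P) =
        MvPolynomial.eval (fun q : Fin n × Fin n => TF.rat ρ g⁻¹ q.1 q.2) P := by
    intro g
    rw [MvPolynomial.eval_rename]
    rfl
  have h1 := h (MvPolynomial.rename Prod.swap P) (fun g hg => by
    rw [key]
    exact hP _ (Subgroup.inv_mem _ hg)) u⁻¹
  rw [key, inv_inv] at h1
  exact h1

/-- a matrix commuting with the tensor powers of two elements commutes with everything -/
theorem ZD.commute {ρ : Γ →* GL (Fin n) ℤ_[p]} {x y : Γ} (h : ZD ρ x y) {m : ℕ}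
    {N : Matrix (Fin m → Fin n) (Fin m → Fin n) ℚ_[p]}
    (hx : N * tpf m (TF.rat ρ x) = tpf m (TF.rat ρ x) * N)
    (hy : N * tpf m (TF.rat ρ y) = tpf m (TF.rat ρ y) * N) (u : Γ) :
    N * tpf m (TF.rat ρ u) = tpf m (TF.rat ρ u) * N := by
  set X : Matrix (Fin n) (Fin n) (MvPolynomial (Fin n × Fin n) ℚ_[p]) :=
    Matrix.mvPolynomialX (Fin n) (Fin n) ℚ_[p] with hX
  set M : Matrix (Fin m → Fin n) (Fin m → Fin n) (MvPolynomial (Fin n × Fin n) ℚ_[p]) :=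
    N.map MvPolynomial.C * tpf m X - tpf m X * N.map MvPolynomial.C with hM
  have key : ∀ g a b, MvPolynomial.eval (fun q : Fin n × Fin n => TF.rat ρ g q.1 q.2) (M a b) =
      (N * tpf m (TF.rat ρ g) - tpf m (TF.rat ρ g) * N) a b := by
    intro g a b
    set φ : MvPolynomial (Fin n × Fin n) ℚ_[p] →+* ℚ_[p] :=
      MvPolynomial.eval (fun q : Fin n × Fin n => TF.rat ρ g q.1 q.2) with hφ
    have e1 : (N.map (MvPolynomial.C (σ := Fin n × Fin n))).map φ = N := by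
      ext i j
      rw [Matrix.map_apply, Matrix.map_apply, hφ, MvPolynomial.eval_C]
    have e2 : (tpf m X).map φ = tpf m (TF.rat ρ g) := by
      rw [← tpf_map]
      congr 1
      ext i j
      rw [Matrix.map_apply, hX, Matrix.mvPolynomialX_apply, hφ, MvPolynomial.eval_X]
    have e3 : M.map φ = N * tpf m (TF.rat ρ g) - tpf m (TF.rat ρ g) * N := by
      rw [hM, Matrix.map_sub φ (fun a b => map_sub φ a b), Matrix.map_mul, Matrix.map_mul, e1, e2]
    rw [← e3, Matrix.map_apply]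
  have hcl : ∀ g ∈ Subgroup.closure {x, y},
      N * tpf m (TF.rat ρ g) = tpf m (TF.rat ρ g) * N := by
    intro g hg
    induction hg using Subgroup.closure_induction with
    | mem g hg =>
      rcases hg with rfl | hg
      · exact hx
      · rw [Set.mem_singleton_iff] at hg
        rw [hg]
        exact hy
    | one => rw [map_one, tpf_one, mul_one, one_mul]
    | mul g g' _ _ hg hg' =>
      rw [map_mul, tpf_mul, ← mul_assoc, hg, mul_assoc, hg', mul_assoc]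
    | inv g _ hg =>
      have e1 : tpf m (TF.rat ρ g) * tpf m (TF.rat ρ g⁻¹) = 1 := by
        rw [← tpf_mul, ← map_mul, mul_inv_cancel, map_one, tpf_one]
      have e2 : tpf m (TF.rat ρ g⁻¹) * tpf m (TF.rat ρ g) = 1 := by
        rw [← tpf_mul, ← map_mul, inv_mul_cancel, map_one, tpf_one]
      calc N * tpf m (TF.rat ρ g⁻¹) =
          tpf m (TF.rat ρ g⁻¹) * (tpf m (TF.rat ρ g) * N) * tpf m (TF.rat ρ g⁻¹) := by
            rw [← mul_assoc, e2, one_mul]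
        _ = tpf m (TF.rat ρ g⁻¹) * N * (tpf m (TF.rat ρ g) * tpf m (TF.rat ρ g⁻¹)) := by
            rw [← hg]
            simp only [mul_assoc]
        _ = _ := by rw [e1, mul_one]
  have h1 : ∀ a b, (N * tpf m (TF.rat ρ u) - tpf m (TF.rat ρ u) * N) a b = 0 := by
    intro a b
    rw [← key]
    refine h (M a b) (fun g hg => ?_) u
    rw [key, hcl g hg, sub_self, Matrix.zero_apply]
  rw [← sub_eq_zero]
  ext a b
  rw [h1, Matrix.zero_apply]

end dense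

section places

variable {K : Type} [Field K] [NumberField K] {n : ℕ}
  (ρ : ∀ ℓ : ℕ, [Fact ℓ.Prime] → GK K →* GL (Fin n) ℤ_[ℓ])

/-- the place is good: two Frobenius elements are Zariski dense for all primes -/
def ZGood [MeasurableSpace (GK K)] (μ : Measure (GK K)) (v : HeightOneSpectrum (𝓞 K)) : Prop :=
  ∀ α, IsFrob v α → ∀ᵐ γ ∂μ, ∀ (ℓ : ℕ) [Fact ℓ.Prime], (ℓ : 𝓞 K) ∉ v.asIdeal →
    CR (Set.range (TF.rat (ρ ℓ))) → (∀ σ, σ ∈ conn (ρ ℓ)) → ∀ k : ℕ, k ≠ 0 →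
      ZD (ρ ℓ) (α ^ k) ((γ * α * γ⁻¹) ^ k)

/-- **Two Frobenius elements at one place are Zariski dense at all primes.** -/
theorem zgood_null [MeasurableSpace (GK K)] [BorelSpace (GK K)] (μ : Measure (GK K))
    [μ.IsHaarMeasure] [μ.OuterRegular] {S : Set (HeightOneSpectrum (𝓞 K))} (hS : S.Finite)
    (P : HeightOneSpectrum (𝓞 K) → ℤ[X]) (w : ℕ)
    (hpure : ∀ v ∉ S, ∀ z ∈ ((P v).map (algebraMap ℤ ℂ)).roots,
      ‖z‖ ^ 2 = (Ideal.absNorm v.asIdeal : ℝ) ^ w)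
    (hρ : ∀ (ℓ : ℕ) [Fact ℓ.Prime], Continuous fun σ => (ρ ℓ σ : Matrix (Fin n) (Fin n) ℤ_[ℓ]))
    (hI : ∀ (ℓ : ℕ) [Fact ℓ.Prime], ∀ v ∉ S, (ℓ : 𝓞 K) ∉ v.asIdeal → ∀ σ, IsInert v σ → ρ ℓ σ = 1)
    (hP : ∀ (ℓ : ℕ) [Fact ℓ.Prime], ∀ v ∉ S, (ℓ : 𝓞 K) ∉ v.asIdeal → ∀ σ, IsFrob v σ →
      (TF.rat (ρ ℓ) σ⁻¹).charpoly = (P v).map (algebraMap ℤ ℚ_[ℓ])) :
    Tendsto (dens fun v => ¬ ZGood ρ μ v) atTop (𝓝 0) := by
  have h1 := regAll_null (fun ℓ _ => aug (ρ ℓ)) μ hS P w hpure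
    (fun ℓ _ => continuous_dsm (hρ ℓ) continuous_const)
    (fun ℓ _ v hv hvℓ σ hσ => aug_eq_one (hI ℓ v hv hvℓ σ hσ))
    (fun ℓ _ v hv hvℓ σ hσ => aug_charpoly (hP ℓ v hv hvℓ σ hσ))
  refine squeeze_zero (fun N => dens_nonneg _ N) (fun N => dens_mono (fun v hv => ?_) N) h1
  intro hgood
  apply hv
  intro α hα
  have h2 : ∀ q : ℕ × ℕ, ∀ᵐ γ ∂μ, ∀ (_ : Fact q.1.Prime), (q.1 : 𝓞 K) ∉ v.asIdeal →
      CR (Set.range (TF.rat (ρ q.1))) → (∀ σ, σ ∈ conn (ρ q.1)) → ∀ k : ℕ, k ≠ 0 → ∀ u,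
        TF.rat (tp q.2 (aug (ρ q.1))) u ∈
          Algebra.adjoin ℚ_[q.1] {TF.rat (tp q.2 (aug (ρ q.1))) (α ^ k),
            TF.rat (tp q.2 (aug (ρ q.1))) ((γ * α * γ⁻¹) ^ k)} := by
    rintro ⟨ℓ, m⟩
    by_cases hℓ : ℓ.Prime
    · have hfact : Fact ℓ.Prime := ⟨hℓ⟩
      by_cases hcond : (ℓ : 𝓞 K) ∉ v.asIdeal ∧ CR (Set.range (TF.rat (ρ ℓ))) ∧
          ∀ σ, σ ∈ conn (ρ ℓ)
      · obtain ⟨hvℓ, hss, hc⟩ := hcond
        have hss1 := CR_aug hss
        have hcont : Continuous fun σ => (aug (ρ ℓ) σ : Matrix (Fin (n + 1)) (Fin (n + 1)) ℤ_[ℓ]) :=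
          continuous_dsm (hρ ℓ) continuous_const
        have hss' := CR_tp m hcont hss1
        have hct : ConnOn (ρ ℓ) ⊤ := fun D hD V hV hDV u _ =>
          connOn_conn (ρ ℓ) D hD V hV hDV u (hc u)
        have hc1 : ∀ σ, σ ∈ conn (aug (ρ ℓ)) := fun σ => (connOn_aug hct).le trivial
        have hc' : ∀ σ, σ ∈ conn (tp m (aug (ρ ℓ))) :=
          fun σ => (connOn_tp m (connOn_aug hct)).le trivial
        have h3 := hgood m ℓ hvℓ hss1 hc1 α hα
        filter_upwards [(connOn_conn (tp m (aug (ρ ℓ)))).conj_regular μ (continuous_tp m hcont)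
          (isOpen_conn (tp m (aug (ρ ℓ)))) hss' (hc' α) h3.1 fun m hm g _ => h3.2 m hm g]
          with γ hγ _ _ _ _ k hk u
        rw [conj_pow]
        exact hγ (hc' γ) k hk u (hc' u)
      · refine Filter.Eventually.of_forall fun γ _ h2 h3 h4 => ?_
        exact (hcond ⟨h2, h3, h4⟩).elim
    · exact Filter.Eventually.of_forall fun γ h2 => (hℓ h2.out).elim
  filter_upwards [ae_all_iff.2 h2] with γ hγ
  intro ℓ hℓ h3 h4 h5 k hk
  exact zariski_of_gen fun m u => hγ (ℓ, m) hℓ h3 h4 h5 k hk u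

end places

end Pool.Agent.H850.MT2
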