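import Pool.Agent.H850.MT.Place

/-!
# Contragredient representations
-/

set_option autoImplicit false
set_option linter.unusedSectionVars false

namespace Pool.Agent.H850.MT2

open Pool.Agent.H850.TF Pool.Agent.H850.RG Topology

section adj

variable {N : ℕ} {p : ℕ} [Fact p.Prime] {Γ : Type} [Group Γ]

theorem inv_mem_adjoin {A B : Matrix (Fin N) (Fin N) ℚ_[p]} (h : A * B = 1) :
    B ∈ Algebra.adjoin ℚ_[p] {A} := by
  have hBA : B * A = 1 := mul_eq_one_comm.1 h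
  set S := Algebra.adjoin ℚ_[p] {A} with hS
  have hA : A ∈ S := Algebra.self_mem_adjoin_singleton ℚ_[p] A
  let f : S →ₗ[ℚ_[p]] S := LinearMap.mulLeft ℚ_[p] (⟨A, hA⟩ : S)
  have hf : Function.Injective f := by
    intro x y hxy
    have h1 : A * (x : Matrix (Fin N) (Fin N) ℚ_[p]) = A * y := congrArg Subtype.val hxy
    apply Subtype.ext
    calc (x : Matrix (Fin N) (Fin N) ℚ_[p]) = B * (A * x) := by rw [← mul_assoc, hBA, one_mul]
      _ = y := by rw [h1, ← mul_assoc, hBA, one_mul]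
  obtain ⟨x, hx⟩ := LinearMap.surjective_of_injective hf 1
  have h1 : A * (x : Matrix (Fin N) (Fin N) ℚ_[p]) = 1 := congrArg Subtype.val hx
  have h2 : B = x := by
    calc B = B * (A * x) := by rw [h1, mul_one]
      _ = x := by rw [← mul_assoc, hBA, one_mul]
  rw [h2]
  exact x.2

theorem transpose_mem_adjoin {A B Y : Matrix (Fin N) (Fin N) ℚ_[p]}
    (h : Y ∈ Algebra.adjoin ℚ_[p] {A.transpose, B.transpose}) :
    Y.transpose ∈ Algebra.adjoin ℚ_[p] {A, B} := by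
  induction h using Algebra.adjoin_induction with
  | mem x hx =>
    rcases hx with rfl | hx
    · rw [Matrix.transpose_transpose]
      exact Algebra.subset_adjoin (Set.mem_insert _ _)
    · rw [Set.mem_singleton_iff] at hx
      rw [hx, Matrix.transpose_transpose]
      exact Algebra.subset_adjoin (Set.mem_insert_of_mem _ (Set.mem_singleton _))
  | algebraMap r =>
    rw [Matrix.algebraMap_eq_diagonal, Matrix.diagonal_transpose, ← Matrix.algebraMap_eq_diagonal]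
    exact Subalgebra.algebraMap_mem _ r
  | add x y _ _ hx hy =>
    rw [Matrix.transpose_add]
    exact Subalgebra.add_mem _ hx hy
  | mul x y _ _ hx hy =>
    rw [Matrix.transpose_mul]
    exact Subalgebra.mul_mem _ hy hx

/-- the contragredient representation -/
noncomputable def dual (ρ : Γ →* GL (Fin N) ℤ_[p]) : Γ →* GL (Fin N) ℤ_[p] :=
  MonoidHom.toHomUnits
    { toFun := fun σ => (ρ σ⁻¹ : Matrix (Fin N) (Fin N) ℤ_[p]).transpose
      map_one' := by
        rw [inv_one, map_one, Units.val_one, Matrix.transpose_one]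
      map_mul' := fun σ τ => by
        rw [mul_inv_rev, map_mul, Units.val_mul, Matrix.transpose_mul] }

theorem dual_val (ρ : Γ →* GL (Fin N) ℤ_[p]) (σ : Γ) :
    (dual ρ σ : Matrix (Fin N) (Fin N) ℤ_[p]) =
      (ρ σ⁻¹ : Matrix (Fin N) (Fin N) ℤ_[p]).transpose := rfl

theorem rat_dual (ρ : Γ →* GL (Fin N) ℤ_[p]) (σ : Γ) :
    TF.rat (dual ρ) σ = (TF.rat ρ σ⁻¹).transpose := rfl

theorem dual_eq_one {ρ : Γ →* GL (Fin N) ℤ_[p]} {σ : Γ} (h : ρ σ = 1) : dual ρ σ = 1 := by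
  apply Units.ext
  rw [dual_val, map_inv, h, inv_one, Units.val_one, Matrix.transpose_one]

theorem continuous_dual [TopologicalSpace Γ] [IsTopologicalGroup Γ] {ρ : Γ →* GL (Fin N) ℤ_[p]}
    (hρ : Continuous fun σ => (ρ σ : Matrix (Fin N) (Fin N) ℤ_[p])) :
    Continuous fun σ => (dual ρ σ : Matrix (Fin N) (Fin N) ℤ_[p]) :=
  (hρ.comp continuous_inv).matrix_transpose

theorem Pol_dual (ρ : Γ →* GL (Fin N) ℤ_[p]) : Pol (dual ρ) ≤ Pol ρ := by
  apply Algebra.adjoin_le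
  rintro D (⟨i, j, rfl⟩ | ⟨i, j, rfl⟩)
  · exact Algebra.subset_adjoin (Or.inr ⟨j, i, rfl⟩)
  · refine Algebra.subset_adjoin (Or.inl ⟨j, i, ?_⟩)
    funext σ
    rw [rat_dual, inv_inv, Matrix.transpose_apply]

theorem connOn_dual [TopologicalSpace Γ] {ρ : Γ →* GL (Fin N) ℤ_[p]} {U : Subgroup Γ}
    (h : ConnOn ρ U) : ConnOn (dual ρ) U :=
  fun D hD V hV hDV u hu => h D (Pol_dual ρ hD) V hV hDV u hu

/-- the contragredient of a representation with a pairing is semisimple -/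
theorem CR_dual {ρ : Γ →* GL (Fin N) ℤ_[p]} {χ : Γ → ℚ_[p]} (hχ : ∀ σ, χ σ ≠ 0)
    {J J' : Matrix (Fin N) (Fin N) ℚ_[p]} (hJ : J' * J = 1)
    (hρJ : ∀ σ, (TF.rat ρ σ).transpose * J * TF.rat ρ σ = χ σ • J)
    (h : CR (Set.range (TF.rat ρ))) : CR (Set.range (TF.rat (dual ρ))) := by
  have hJ' : J * J' = 1 := mul_eq_one_comm.1 hJ
  have key : ∀ σ, TF.rat (dual ρ) σ * J = χ σ⁻¹ • (J * TF.rat ρ σ) := by
    intro σ
    have h1 := hρJ σ⁻¹
    have h2 : TF.rat ρ σ⁻¹ * TF.rat ρ σ = 1 := by rw [← map_mul, inv_mul_cancel, map_one]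
    calc TF.rat (dual ρ) σ * J = (TF.rat ρ σ⁻¹).transpose * J * (TF.rat ρ σ⁻¹ * TF.rat ρ σ) := by
          rw [h2, mul_one, rat_dual]
      _ = ((TF.rat ρ σ⁻¹).transpose * J * TF.rat ρ σ⁻¹) * TF.rat ρ σ := by
          simp only [mul_assoc]
      _ = _ := by rw [h1, smul_mul_assoc]
  let e : (Fin N → ℚ_[p]) ≃ₗ[ℚ_[p]] (Fin N → ℚ_[p]) :=
    LinearEquiv.ofLinearMap (Matrix.toLin' J) (Matrix.toLin' J')
      (by rw [← Matrix.toLin'_mul, hJ', Matrix.toLin'_one])
      (by rw [← Matrix.toLin'_mul, hJ, Matrix.toLin'_one])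
  have he : ∀ x, e x = J.mulVec x := fun x => rfl
  have key2 : ∀ σ x, (TF.rat (dual ρ) σ).mulVec (e x) = χ σ⁻¹ • e ((TF.rat ρ σ).mulVec x) := by
    intro σ x
    rw [he, he, Matrix.mulVec_mulVec, key, Matrix.smul_mulVec, Matrix.mulVec_mulVec]
  intro W hW
  obtain ⟨W', hW', hc⟩ := h (W.comap e.toLinearMap) (by
    rintro _ ⟨σ, rfl⟩ x hx
    rw [Submodule.mem_comap] at hx ⊢
    have h1 := hW _ ⟨σ, rfl⟩ _ hx
    change e ((TF.rat ρ σ).mulVec x) ∈ W
    have h2 := key2 σ x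
    have h3 : e ((TF.rat ρ σ).mulVec x) = (χ σ⁻¹)⁻¹ • (TF.rat (dual ρ) σ).mulVec (e x) := by
      rw [h2, smul_smul, inv_mul_cancel₀ (hχ _), one_smul]
    rw [h3]
    exact W.smul_mem _ h1)
  refine ⟨W'.map e.toLinearMap, ?_, ?_⟩
  · rintro _ ⟨σ, rfl⟩ _ ⟨x, hx, rfl⟩
    change (TF.rat (dual ρ) σ).mulVec (e x) ∈ _
    rw [key2]
    exact Submodule.smul_mem _ _ ⟨_, hW' _ ⟨σ, rfl⟩ x hx, rfl⟩
  · have h1 := (Submodule.orderIsoMapComap e).isCompl hc
    have h2 : (Submodule.orderIsoMapComap e) (W.comap e.toLinearMap) = W := by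
      change (W.comap e.toLinearMap).map e.toLinearMap = W
      exact Submodule.map_comap_eq_of_surjective e.surjective W
    rw [h2] at h1
    exact h1

/-- generation passes from the contragredient to the representation -/
theorem gen_of_dual (m : ℕ) {ρ : Γ →* GL (Fin N) ℤ_[p]} {x y : Γ}
    (h : ∀ u, TF.rat (tp m (dual ρ)) u ∈
      Algebra.adjoin ℚ_[p] {TF.rat (tp m (dual ρ)) x, TF.rat (tp m (dual ρ)) y}) (u : Γ) :
    TF.rat (tp m ρ) u ∈ Algebra.adjoin ℚ_[p] {TF.rat (tp m ρ) x, TF.rat (tp m ρ) y} := by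
  have e1 : ∀ z, TF.rat (tp m (dual ρ)) z = (TF.rat (tp m ρ) z⁻¹).transpose := by
    intro z
    rw [rat_tp, rat_tp, rat_dual]
    rfl
  have h1 := h u⁻¹
  rw [e1, e1, e1, inv_inv] at h1
  have h2 := transpose_mem_adjoin h1
  rw [Matrix.transpose_transpose] at h2
  have h3 : ∀ z, TF.rat (tp m ρ) z⁻¹ ∈ Algebra.adjoin ℚ_[p] {TF.rat (tp m ρ) z} := by
    intro z
    apply inv_mem_adjoin
    rw [← map_mul, mul_inv_cancel, map_one]
  have h4 : Algebra.adjoin ℚ_[p] {TF.rat (tp m ρ) x⁻¹, TF.rat (tp m ρ) y⁻¹} ≤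
      Algebra.adjoin ℚ_[p] {TF.rat (tp m ρ) x, TF.rat (tp m ρ) y} := by
    apply Algebra.adjoin_le
    intro Z hZ
    rcases hZ with rfl | hZ
    · exact Algebra.adjoin_mono (Set.singleton_subset_iff.2 (Set.mem_insert _ _)) (h3 x)
    · rw [Set.mem_singleton_iff] at hZ
      rw [hZ]
      exact Algebra.adjoin_mono (Set.singleton_subset_iff.2
        (Set.mem_insert_of_mem _ (Set.mem_singleton _))) (h3 y)
  exact h4 h2

/-- forms which are fixed by an open subgroup are fixed by the group -/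
theorem commute_of_open [TopologicalSpace Γ] [IsTopologicalGroup Γ] {ρ : Γ →* GL (Fin N) ℤ_[p]}
    (h : ConnOn ρ ⊤) {V : Subgroup Γ} (hV : IsOpen (V : Set Γ))
    {X : Matrix (Fin N) (Fin N) ℚ_[p]} (hX : ∀ v ∈ V, Commute (TF.rat ρ v) X) (u : Γ) :
    Commute (TF.rat ρ u) X := by
  have h1 := h.mem_adjoin hV (u := u) trivial (Subalgebra.centralizer ℚ_[p] {X}) (by
    intro v hv
    rw [Subalgebra.mem_centralizer_iff]
    intro g hg
    rw [Set.mem_singleton_iff] at hg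
    rw [hg]
    exact (hX v hv).symm.eq)
  rw [Subalgebra.mem_centralizer_iff] at h1
  exact (h1 X rfl).symm

end adj

end Pool.Agent.H850.MT2
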