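import Pool.Agent.H850.MT.Count

/-!
# One place for all tensor degrees
-/

set_option autoImplicit false
set_option linter.unusedSectionVars false

namespace Pool.Agent.H850.MT2

open Pool.Agent.H850.TF Pool.Agent.H850.RG MeasureTheory Topology Filter NumberField
  IsDedekindDomain Polynomial
open Pool.Agent.W401.Cheb (GK IsFrob IsInert dens)

variable {K : Type} [Field K] [NumberField K]

theorem dens_finset {I : Type} (Q : I → HeightOneSpectrum (𝓞 K) → Prop)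
    (h : ∀ i, Tendsto (dens (Q i)) atTop (𝓝 0)) (s : Finset I) :
    Tendsto (dens fun v => ∃ i ∈ s, Q i v) atTop (𝓝 0) := by
  classical
  induction s using Finset.induction_on with
  | empty =>
    have h1 : (dens fun v : HeightOneSpectrum (𝓞 K) => ∃ i ∈ (∅ : Finset I), Q i v) =
        fun _ => 0 := by
      funext n
      unfold dens
      have : IsEmpty {v : HeightOneSpectrum (𝓞 K) //
          Ideal.absNorm v.asIdeal ≤ n ∧ ∃ i ∈ (∅ : Finset I), Q i v} :=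
        ⟨fun v => by
          obtain ⟨i, hi, -⟩ := v.2.2
          exact absurd hi (Finset.notMem_empty i)⟩
      rw [Nat.card_of_isEmpty]
      simp
    rw [h1]
    exact tendsto_const_nhds
  | insert a s _ ih =>
    have h3 := (h a).add ih
    rw [add_zero] at h3
    refine squeeze_zero (fun N => dens_nonneg _ N) (fun N => ?_) h3
    refine le_trans (dens_mono (fun v hv => ?_) N) (dens_or _ _ N)
    obtain ⟨i, hi, h4⟩ := hv
    rcases Finset.mem_insert.1 hi with rfl | hi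
    · exact Or.inl h4
    · exact Or.inr ⟨i, hi, h4⟩

theorem absNorm_eq_pow (v : HeightOneSpectrum (𝓞 K)) : ∃ (p f : ℕ), p.Prime ∧
    f ≤ Module.finrank ℚ K ∧ Ideal.absNorm v.asIdeal = p ^ f := by
  have h0 : Ideal.absNorm v.asIdeal ≠ 1 := by
    rw [Ne, Ideal.absNorm_eq_one_iff]
    exact v.isPrime.ne_top
  have h0' : Ideal.absNorm v.asIdeal ≠ 0 := by
    rw [Ne, Ideal.absNorm_eq_zero_iff]
    exact v.ne_bot
  -- a prime number in the ideal
  obtain ⟨p, hp, hpv⟩ : ∃ p : ℕ, p.Prime ∧ (p : 𝓞 K) ∈ v.asIdeal := by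
    have h1 : ((Ideal.absNorm v.asIdeal : ℕ) : 𝓞 K) ∈ v.asIdeal := Ideal.absNorm_mem _
    have h2 : ∀ N : ℕ, N ≠ 0 → ((N : ℕ) : 𝓞 K) ∈ v.asIdeal →
        ∃ p : ℕ, p.Prime ∧ (p : 𝓞 K) ∈ v.asIdeal := by
      intro N
      induction N using Nat.strong_induction_on with
      | _ N ih =>
        intro hN hmem
        have hN1 : N ≠ 1 := by
          rintro rfl
          rw [Nat.cast_one] at hmem
          exact v.isPrime.ne_top ((Ideal.eq_top_iff_one _).2 hmem)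
        obtain ⟨p, hp, c, hc⟩ := Nat.exists_prime_and_dvd hN1
        rw [hc, Nat.cast_mul] at hmem
        rcases v.isPrime.mem_or_mem hmem with h | h
        · exact ⟨p, hp, h⟩
        · have hc0 : c ≠ 0 := by
            rintro rfl
            exact hN (by rw [hc, mul_zero])
          refine ih c ?_ hc0 h
          rw [hc]
          exact lt_mul_of_one_lt_left (Nat.pos_of_ne_zero hc0) hp.one_lt
    exact h2 _ h0' h1
  have h2 : Ideal.absNorm v.asIdeal ∣ p ^ Module.finrank ℚ K := by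
    have h3 : Ideal.absNorm v.asIdeal ∣ Ideal.absNorm (Ideal.span {((p : ℕ) : 𝓞 K)}) :=
      Ideal.absNorm_dvd_absNorm_of_le (by
        rw [Ideal.span_singleton_le_iff_mem]
        exact hpv)
    rwa [Ideal.absNorm_span_natCast, RingOfIntegers.rank] at h3
  obtain ⟨f, hf, hf2⟩ := (Nat.dvd_prime_pow hp).1 h2
  exact ⟨p, f, hp, hf, hf2⟩

variable {n : ℕ} (ρ : ∀ ℓ : ℕ, [Fact ℓ.Prime] → GK K →* GL (Fin (n + 1)) ℤ_[ℓ])

/-- the Frobenius elements are regular in all degrees at all primes -/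
def RegAll (v : HeightOneSpectrum (𝓞 K)) : Prop :=
  ∀ (m ℓ : ℕ) [Fact ℓ.Prime], (ℓ : 𝓞 K) ∉ v.asIdeal →
      CR (Set.range (TF.rat (ρ ℓ))) → (∀ σ, σ ∈ conn (ρ ℓ)) → ∀ σ, IsFrob v σ →
        CR ({TF.rat (tp m (ρ ℓ)) σ} :
          Set (Matrix (Fin ((n + 1) ^ m)) (Fin ((n + 1) ^ m)) ℚ_[ℓ])) ∧
        ∀ k : ℕ, k ≠ 0 → ∀ g, rk (TF.rat (tp m (ρ ℓ)) g) ≤ rk (TF.rat (tp m (ρ ℓ)) (σ ^ k))

/-- **Regular Frobenius elements in all tensor degrees.** -/
theorem regAll_null [MeasurableSpace (GK K)] [BorelSpace (GK K)] (μ : Measure (GK K))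
    [μ.IsHaarMeasure] [μ.OuterRegular] {S : Set (HeightOneSpectrum (𝓞 K))} (hS : S.Finite)
    (P : HeightOneSpectrum (𝓞 K) → ℤ[X]) (w : ℕ)
    (hpure : ∀ v ∉ S, ∀ z ∈ ((P v).map (algebraMap ℤ ℂ)).roots,
      ‖z‖ ^ 2 = (Ideal.absNorm v.asIdeal : ℝ) ^ w)
    (hρ : ∀ (ℓ : ℕ) [Fact ℓ.Prime],
      Continuous fun σ => (ρ ℓ σ : Matrix (Fin (n + 1)) (Fin (n + 1)) ℤ_[ℓ]))
    (hI : ∀ (ℓ : ℕ) [Fact ℓ.Prime], ∀ v ∉ S, (ℓ : 𝓞 K) ∉ v.asIdeal → ∀ σ, IsInert v σ → ρ ℓ σ = 1)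
    (hP : ∀ (ℓ : ℕ) [Fact ℓ.Prime], ∀ v ∉ S, (ℓ : 𝓞 K) ∉ v.asIdeal → ∀ σ, IsFrob v σ →
      (TF.rat (ρ ℓ) σ⁻¹).charpoly = (P v * (X - 1)).map (algebraMap ℤ ℚ_[ℓ])) :
    Tendsto (dens fun v => ¬ RegAll ρ v) atTop (𝓝 0) := by
  classical
  -- semisimplicity
  have hC : Tendsto (dens fun v : HeightOneSpectrum (𝓞 K) => ¬ (v ∉ S ∧
      ∀ (ℓ : ℕ) [Fact ℓ.Prime], (ℓ : 𝓞 K) ∉ v.asIdeal →
      Pool.Agent.X320.DS.Semisimple (overQ ρ ℓ) → ∀ σ, IsFrob v σ →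
        Module.End.IsSemisimple (Matrix.toLin' (overQ ρ ℓ σ :
          Matrix (Fin (n + 1)) (Fin (n + 1)) ℚ_[ℓ]))))
      atTop (𝓝 0) := by
    have h1 := Pool.Agent.X320.FS.compat_ss hS (fun v => P v * (X - 1)) (overQ ρ)
      (overQ_continuous ρ hρ)
      (fun ℓ hℓ v hv hvℓ σ hσ => by
        have h2 := hI ℓ v hv hvℓ σ hσ
        change (Matrix.GeneralLinearGroup.map (algebraMap ℤ_[ℓ] ℚ_[ℓ])) (ρ ℓ σ) = 1
        rw [h2, map_one]) (fun ℓ hℓ v hv hvℓ σ hσ => hP ℓ v hv hvℓ σ hσ)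
    have h3 := (dens_all (K := K)).sub h1
    rw [sub_self] at h3
    refine h3.congr fun N => ?_
    rw [← dens_add_not _ N]
    ring
  -- existence of Frobenius elements
  have hF : Tendsto (dens fun v : HeightOneSpectrum (𝓞 K) => ∀ σ, IsFrob v σ → σ ∈ (∅ : Set (GK K)))
      atTop (𝓝 0) := dens_null μ isClosed_empty measure_empty
  -- the types
  obtain ⟨D, hD⟩ := exists_poly_type n (Module.finrank ℚ K * w)
  let Has : Set (Fin (n + 1) → Fin (D + 1)) → HeightOneSpectrum (𝓞 K) → Prop := fun T v =>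
    (P v).Monic ∧ ∃ lam : Fin (n + 1) → AlgebraicClosure ℚ,
      ((P v * (X - 1)).map (algebraMap ℤ (AlgebraicClosure ℚ))).roots = Finset.univ.val.map lam ∧
      ∀ (m : ℕ) (f g : Fin m → Fin (n + 1)),
        (∃ k : ℕ, k ≠ 0 ∧ (∏ i, lam (f i)) ^ k = (∏ i, lam (g i)) ^ k) ↔
          ∀ r ∈ T, ∑ i, (r (f i) : ℕ) = ∑ i, (r (g i) : ℕ)
  -- the ranks at a good place with a given type
  have hrank : ∀ (T : Set (Fin (n + 1) → Fin (D + 1))) (v : HeightOneSpectrum (𝓞 K)), (v ∉ S ∧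
      ∀ (ℓ : ℕ) [Fact ℓ.Prime], (ℓ : 𝓞 K) ∉ v.asIdeal →
      Pool.Agent.X320.DS.Semisimple (overQ ρ ℓ) → ∀ σ, IsFrob v σ →
        Module.End.IsSemisimple (Matrix.toLin' (overQ ρ ℓ σ :
          Matrix (Fin (n + 1)) (Fin (n + 1)) ℚ_[ℓ]))) →
      Has T v → ∀ (m ℓ : ℕ) [Fact ℓ.Prime], (ℓ : 𝓞 K) ∉ v.asIdeal →
      CR (Set.range (TF.rat (ρ ℓ))) → ∀ σ, IsFrob v σ →
        CR ({TF.rat (tp m (ρ ℓ)) σ} :
          Set (Matrix (Fin ((n + 1) ^ m)) (Fin ((n + 1) ^ m)) ℚ_[ℓ])) ∧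
        (∀ k : ℕ, k ≠ 0 → cnt T m ≤ rk (TF.rat (tp m (ρ ℓ)) (σ ^ k))) ∧
          ∃ k : ℕ, k ≠ 0 ∧ rk (TF.rat (tp m (ρ ℓ)) (σ ^ k)) ≤ cnt T m := by
    rintro T v hv ⟨hmon, lam, hlam, hT⟩ m ℓ hℓ hvℓ hss σ hσ
    have h1 := hv.2 ℓ hvℓ (overQ_semisimple ρ ℓ hss) σ hσ
    have h2 : CR ({TF.rat (ρ ℓ) σ} : Set (Matrix (Fin (n + 1)) (Fin (n + 1)) ℚ_[ℓ])) :=
      CR_of_isSemisimple h1
    have h3 : CR ({TF.rat (ρ ℓ) σ⁻¹} : Set (Matrix (Fin (n + 1)) (Fin (n + 1)) ℚ_[ℓ])) := by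
      apply CR_of_isSemisimple
      refine Pool.Agent.X320.FS.ss_inv (M := TF.rat (ρ ℓ) σ) ?_ h1
      rw [← map_mul, mul_inv_cancel, map_one]
    refine ⟨?_, ?_⟩
    · rw [rat_tp]
      exact CR_tpm m h2
    · have hmon' : (P v * (X - 1)).Monic := by
        refine hmon.mul ?_
        have := monic_X_sub_C (1 : ℤ)
        rwa [C_1] at this
      exact rk_ge hT hmon' hlam h3 (hP ℓ v hv.1 hvℓ σ hσ) m
  -- types which are not regular are rare
  have htype : ∀ T : Set (Fin (n + 1) → Fin (D + 1)),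
      Tendsto (dens fun v : HeightOneSpectrum (𝓞 K) => ((v ∉ S ∧
      ∀ (ℓ : ℕ) [Fact ℓ.Prime], (ℓ : 𝓞 K) ∉ v.asIdeal →
      Pool.Agent.X320.DS.Semisimple (overQ ρ ℓ) → ∀ σ, IsFrob v σ →
        Module.End.IsSemisimple (Matrix.toLin' (overQ ρ ℓ σ :
          Matrix (Fin (n + 1)) (Fin (n + 1)) ℚ_[ℓ]))) ∧ Has T v ∧
        ∃ (m ℓ : ℕ) (_ : Fact ℓ.Prime), CR (Set.range (TF.rat (ρ ℓ))) ∧
          (∀ σ, σ ∈ conn (ρ ℓ)) ∧ ∃ g, cnt T m < rk (TF.rat (tp m (ρ ℓ)) g))) atTop (𝓝 0) := by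
    intro T
    by_cases hT : ∃ (m ℓ : ℕ) (_ : Fact ℓ.Prime), CR (Set.range (TF.rat (ρ ℓ))) ∧
          (∀ σ, σ ∈ conn (ρ ℓ)) ∧ ∃ g, cnt T m < rk (TF.rat (tp m (ρ ℓ)) g)
    · obtain ⟨m, ℓ, hℓ, hss, hc, g, hg⟩ := hT
      have h1 := compat_regular (fun ℓ _ => tp m (ρ ℓ)) μ hS
        (fun v => tpoly (n + 1) m (P v * (X - 1))) (fun ℓ _ => continuous_tp m (hρ ℓ)) (by
          intro ℓ hℓ v hv hvℓ σ hσ
          exact tp_eq_one m (hI ℓ v hv hvℓ σ hσ)) (by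
          intro ℓ hℓ v hv hvℓ σ hσ
          rw [rat_tp]
          exact tpoly_spec (n + 1) m (P v * (X - 1)) ℚ_[ℓ] _ (hP ℓ v hv hvℓ σ hσ))
      have hfin : {v : HeightOneSpectrum (𝓞 K) | (ℓ : 𝓞 K) ∈ v.asIdeal}.Finite :=
        Pool.Agent.X320.DS.finite_above hℓ.out.ne_zero
      have h2 := (h1.add (Pool.Agent.X320.DS.dens_finite _ hfin)).add hF
      rw [add_zero, add_zero] at h2
      refine squeeze_zero (fun N => dens_nonneg _ N) (fun N => ?_) h2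
      refine le_trans (dens_mono (fun v hv => ?_) N) (le_trans (dens_or _ _ N)
        (add_le_add (dens_or _ _ N) le_rfl))
      obtain ⟨hv1, hv2, -⟩ := hv
      by_contra hcon
      rw [not_or, not_or, not_not] at hcon
      obtain ⟨⟨e1, e2⟩, e3⟩ := hcon
      push Not at e3
      obtain ⟨σ, hσ, -⟩ := e3
      obtain ⟨k, hk, h3⟩ := (hrank T v hv1 hv2 m ℓ e2 hss σ hσ).2.2
      have hss' := CR_tp m (hρ ℓ) hss
      have hc' : ∀ σ, σ ∈ conn (tp m (ρ ℓ)) := by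
        have h3 : ConnOn (ρ ℓ) ⊤ := fun D hD V hV hDV u _ =>
          connOn_conn (ρ ℓ) D hD V hV hDV u (hc u)
        exact fun σ => (connOn_tp m h3).le trivial
      have h4 := (e1 ℓ e2 hss' hc' σ hσ).2 k hk g
      omega
    · have h1 : Tendsto (dens fun _ : HeightOneSpectrum (𝓞 K) => False) atTop (𝓝 0) := by
        have h2 := dens_finset (K := K) (I := Empty) (fun i _ => i.elim) (fun i => i.elim) ∅
        refine squeeze_zero (fun N => dens_nonneg _ N)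
          (fun N => dens_mono (fun v hv => hv.elim) N) h2
      refine squeeze_zero (fun N => dens_nonneg _ N) (fun N => dens_mono (fun v hv => ?_) N) h1
      exact hT hv.2.2
  have hfinT : Finite (Set (Fin (n + 1) → Fin (D + 1))) := inferInstance
  have := Fintype.ofFinite (Set (Fin (n + 1) → Fin (D + 1)))
  have h1 := hC.add (dens_finset _ htype Finset.univ)
  rw [add_zero] at h1
  refine squeeze_zero (fun N => dens_nonneg _ N) (fun N => ?_) h1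
  refine le_trans (dens_mono (fun v hv => ?_) N) (dens_or _ _ N)
  by_contra hcon
  rw [not_or, not_not] at hcon
  obtain ⟨e1, e2⟩ := hcon
  apply hv
  intro m ℓ hℓ hvℓ hss hc σ hσ
  -- the type of the place
  have hchar := hP ℓ v e1.1 hvℓ σ hσ
  have hinj : Function.Injective (algebraMap ℤ ℚ_[ℓ]) := (algebraMap ℤ ℚ_[ℓ]).injective_int
  have hX1 : (X - 1 : ℤ[X]).Monic := by
    have := monic_X_sub_C (1 : ℤ)
    rwa [C_1] at this
  have hmon' : (P v * (X - 1)).Monic := by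
    apply Polynomial.monic_of_injective hinj
    rw [← hchar]
    exact Matrix.charpoly_monic _
  have hmon : (P v).Monic := hX1.of_mul_monic_right hmon'
  have hdeg : (P v).natDegree = n := by
    have h2 : (P v * (X - 1)).natDegree = n + 1 := by
      rw [← Polynomial.natDegree_map_eq_of_injective hinj, ← hchar,
        Matrix.charpoly_natDegree_eq_dim, Fintype.card_fin]
    rw [hmon.natDegree_mul hX1] at h2
    have h3 : (X - 1 : ℤ[X]).natDegree = 1 := by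
      have := natDegree_X_sub_C (1 : ℤ)
      rwa [C_1] at this
    omega
  obtain ⟨p, f, hp, hf, hpf⟩ := absNorm_eq_pow v
  obtain ⟨lam, T, hlam, hT⟩ := hD p hp (f * w) (Nat.mul_le_mul_right w hf) (P v) hmon hdeg (by
    intro z hz
    rw [hpure v e1.1 z hz, hpf, Nat.cast_pow, pow_mul])
  have hHas : Has T v := ⟨hmon, lam, hlam, hT⟩
  have h2 := hrank T v e1 hHas m ℓ hvℓ hss σ hσ
  refine ⟨h2.1, fun k hk g => ?_⟩
  refine le_trans ?_ (h2.2.1 k hk)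
  by_contra hlt
  push Not at hlt
  exact e2 ⟨T, Finset.mem_univ T, e1, hHas, m, ℓ, hℓ, hss, hc, g, hlt⟩

end Pool.Agent.H850.MT2
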