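import Pool.Agent.H850.MT.AllDeg

/-!
# Zariski density from all tensor degrees
-/

set_option autoImplicit false
set_option linter.unusedSectionVars false

namespace Pool.Agent.H850.MT2

open Pool.Agent.H850.TF Pool.Agent.H850.RG Polynomial

section aug

variable {n : ℕ} {p : ℕ} [Fact p.Prime] {Γ : Type} [Group Γ]

/-- the sum with the trivial representation -/
noncomputable def aug (ρ : Γ →* GL (Fin n) ℤ_[p]) : Γ →* GL (Fin (n + 1)) ℤ_[p] :=
  dsm ρ (1 : Γ →* GL (Fin 1) ℤ_[p])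

theorem rat_one (σ : Γ) : TF.rat (1 : Γ →* GL (Fin 1) ℤ_[p]) σ = 1 := by
  have h1 : TF.rat (1 : Γ →* GL (Fin 1) ℤ_[p]) σ =
      (1 : Matrix (Fin 1) (Fin 1) ℤ_[p]).map (algebraMap ℤ_[p] ℚ_[p]) := rfl
  rw [h1, Matrix.map_one _ (map_zero _) (map_one _)]

theorem rat_aug (ρ : Γ →* GL (Fin n) ℤ_[p]) (σ : Γ) :
    TF.rat (aug ρ) σ = blk (TF.rat ρ σ) 1 := by
  unfold aug
  rw [rat_dsm, rat_one]

theorem aug_eq_one {ρ : Γ →* GL (Fin n) ℤ_[p]} {σ : Γ} (h : ρ σ = 1) : aug ρ σ = 1 := by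
  apply Units.ext
  unfold aug
  rw [dsm_val, h, MonoidHom.one_apply, Units.val_one, Units.val_one, blk_one, Units.val_one]

theorem aug_charpoly {ρ : Γ →* GL (Fin n) ℤ_[p]} {σ : Γ} {P : ℤ[X]}
    (h : (TF.rat ρ σ).charpoly = P.map (algebraMap ℤ ℚ_[p])) :
    (TF.rat (aug ρ) σ).charpoly = (P * (X - 1)).map (algebraMap ℤ ℚ_[p]) := by
  have h1 : blk (TF.rat ρ σ) (1 : Matrix (Fin 1) (Fin 1) ℚ_[p]) =
      Matrix.reindex finSumFinEquiv finSumFinEquiv (Matrix.fromBlocks (TF.rat ρ σ) 0 0 1) := rfl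
  rw [rat_aug, h1, Matrix.charpoly_reindex, Matrix.charpoly_fromBlocks_zero₁₂, h,
    Matrix.charpoly_one, Fintype.card_fin, pow_one, Polynomial.map_mul, Polynomial.map_sub,
    Polynomial.map_X, Polynomial.map_one]

theorem CR_aug {ρ : Γ →* GL (Fin n) ℤ_[p]} (h : CR (Set.range (TF.rat ρ))) :
    CR (Set.range (TF.rat (aug ρ))) := by
  refine CR_dsm h ?_
  intro W _
  obtain ⟨W', hc⟩ := Submodule.exists_isCompl W
  refine ⟨W', ?_, hc⟩
  rintro _ ⟨σ, rfl⟩ x hx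
  rw [rat_one, Matrix.one_mulVec]
  exact hx

theorem Pol_aug (ρ : Γ →* GL (Fin n) ℤ_[p]) : Pol (aug ρ) ≤ Pol ρ := by
  have key : ∀ (a : Γ → Γ), (∀ i j, (fun σ => TF.rat ρ (a σ) i j) ∈ Pol ρ) →
      ∀ i j, (fun σ => TF.rat (aug ρ) (a σ) i j) ∈ Pol ρ := by
    intro a ha i j
    obtain ⟨i, rfl⟩ := finSumFinEquiv.surjective i
    obtain ⟨j, rfl⟩ := finSumFinEquiv.surjective j
    have h1 : ∀ σ, TF.rat (aug ρ) (a σ) (finSumFinEquiv i) (finSumFinEquiv j) =
        Matrix.fromBlocks (TF.rat ρ (a σ)) 0 0 1 i j := by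
      intro σ
      rw [rat_aug]
      unfold blk
      rw [Matrix.submatrix_apply, Equiv.symm_apply_apply, Equiv.symm_apply_apply]
    simp only [h1]
    rcases i with i | i <;> rcases j with j | j
    · exact ha i j
    · exact (Pol ρ).zero_mem
    · exact (Pol ρ).zero_mem
    · exact Subalgebra.algebraMap_mem _ ((1 : Matrix (Fin 1) (Fin 1) ℚ_[p]) i j)
  apply Algebra.adjoin_le
  rintro D (⟨i, j, rfl⟩ | ⟨i, j, rfl⟩)
  · exact key (fun σ => σ) (fun i j => Algebra.subset_adjoin (Or.inl ⟨i, j, rfl⟩)) i j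
  · exact key (fun σ => σ⁻¹) (fun i j => Algebra.subset_adjoin (Or.inr ⟨i, j, rfl⟩)) i j

theorem connOn_aug [TopologicalSpace Γ] {ρ : Γ →* GL (Fin n) ℤ_[p]} {U : Subgroup Γ}
    (h : ConnOn ρ U) : ConnOn (aug ρ) U :=
  fun D hD V hV hDV u hu => h D (Pol_aug ρ hD) V hV hDV u hu

/-- the functions which are linear combinations of the entries of the tensor power -/
noncomputable def Ent (ρ : Γ →* GL (Fin n) ℤ_[p]) (m : ℕ) : Submodule ℚ_[p] (Γ → ℚ_[p]) :=
  Submodule.span ℚ_[p] {f | ∃ a b, f = fun σ => TF.rat (tp m (aug ρ)) σ a b}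

theorem Ent_mul {ρ : Γ →* GL (Fin n) ℤ_[p]} {m : ℕ} {f : Γ → ℚ_[p]} (hf : f ∈ Ent ρ m)
    (i j : Fin (n + 1)) : (fun σ => TF.rat (aug ρ) σ i j * f σ) ∈ Ent ρ (m + 1) := by
  unfold Ent at hf
  induction hf using Submodule.span_induction with
  | mem f hf =>
    obtain ⟨a, b, rfl⟩ := hf
    refine Submodule.subset_span ⟨idx (n + 1) m (i, a), idx (n + 1) m (j, b), ?_⟩
    funext σ
    have h1 : TF.rat (tp (m + 1) (aug ρ)) σ (idx (n + 1) m (i, a)) (idx (n + 1) m (j, b)) =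
        TF.rat (aug ρ) σ i j * TF.rat (tp m (aug ρ)) σ a b := by
      rw [rat_tp, rat_tp, tpm_succ]
    exact h1.symm
  | zero =>
    have h1 : (fun σ => TF.rat (aug ρ) σ i j * (0 : Γ → ℚ_[p]) σ) = 0 := by
      funext σ
      exact mul_zero _
    rw [h1]
    exact Submodule.zero_mem _
  | add f g _ _ hf hg =>
    have h1 : (fun σ => TF.rat (aug ρ) σ i j * (f + g) σ) =
        (fun σ => TF.rat (aug ρ) σ i j * f σ) + fun σ => TF.rat (aug ρ) σ i j * g σ := by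
      funext σ
      rw [Pi.add_apply, mul_add, Pi.add_apply]
    rw [h1]
    exact Submodule.add_mem _ hf hg
  | smul c f _ hf =>
    have h1 : (fun σ => TF.rat (aug ρ) σ i j * (c • f) σ) =
        c • fun σ => TF.rat (aug ρ) σ i j * f σ := by
      funext σ
      rw [Pi.smul_apply, Pi.smul_apply, smul_eq_mul, smul_eq_mul]
      ring
    rw [h1]
    exact Submodule.smul_mem _ c hf

theorem aug_last (ρ : Γ →* GL (Fin n) ℤ_[p]) (σ : Γ) :
    TF.rat (aug ρ) σ (finSumFinEquiv (Sum.inr 0)) (finSumFinEquiv (Sum.inr 0)) = 1 := by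
  rw [rat_aug]
  unfold blk
  rw [Matrix.submatrix_apply, Equiv.symm_apply_apply]
  rfl

theorem aug_entry (ρ : Γ →* GL (Fin n) ℤ_[p]) (σ : Γ) (i j : Fin n) :
    TF.rat (aug ρ) σ (finSumFinEquiv (Sum.inl i)) (finSumFinEquiv (Sum.inl j)) =
      TF.rat ρ σ i j := by
  rw [rat_aug]
  unfold blk
  rw [Matrix.submatrix_apply, Equiv.symm_apply_apply, Equiv.symm_apply_apply]
  rfl

theorem Ent_mono {ρ : Γ →* GL (Fin n) ℤ_[p]} {m m' : ℕ} (h : m ≤ m') : Ent ρ m ≤ Ent ρ m' := by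
  induction m', h using Nat.le_induction with
  | base => exact le_rfl
  | succ m' _ ih =>
    intro f hf
    have h1 := Ent_mul (ih hf) (finSumFinEquiv (Sum.inr 0)) (finSumFinEquiv (Sum.inr 0))
    have h2 : (fun σ => TF.rat (aug ρ) σ (finSumFinEquiv (Sum.inr 0))
        (finSumFinEquiv (Sum.inr 0)) * f σ) = f := by
      funext σ
      rw [aug_last, one_mul]
    rwa [h2] at h1

theorem one_mem_Ent (ρ : Γ →* GL (Fin n) ℤ_[p]) : (fun _ => 1 : Γ → ℚ_[p]) ∈ Ent ρ 0 := by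
  refine Submodule.subset_span ⟨finFunctionFinEquiv Fin.elim0, finFunctionFinEquiv Fin.elim0, ?_⟩
  funext σ
  rw [rat_tp, tpm_apply, Finset.univ_eq_empty, Finset.prod_empty]

/-- polynomials in the entries -/
theorem poly_mem_Ent (ρ : Γ →* GL (Fin n) ℤ_[p]) (P : MvPolynomial (Fin n × Fin n) ℚ_[p]) :
    ∃ m, (fun σ => MvPolynomial.eval (fun q => TF.rat ρ σ q.1 q.2) P) ∈ Ent ρ m := by
  induction P using MvPolynomial.induction_on with
  | C a =>
    refine ⟨0, ?_⟩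
    have h1 : (fun σ : Γ => MvPolynomial.eval (fun q : Fin n × Fin n => TF.rat ρ σ q.1 q.2)
        (MvPolynomial.C a)) = a • (fun _ => 1 : Γ → ℚ_[p]) := by
      funext σ
      rw [MvPolynomial.eval_C, Pi.smul_apply, smul_eq_mul, mul_one]
    rw [h1]
    exact Submodule.smul_mem _ a (one_mem_Ent ρ)
  | add P Q hP hQ =>
    obtain ⟨m, hm⟩ := hP
    obtain ⟨m', hm'⟩ := hQ
    refine ⟨m + m', ?_⟩
    have h1 : (fun σ : Γ => MvPolynomial.eval (fun q => TF.rat ρ σ q.1 q.2) (P + Q)) =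
        (fun σ : Γ => MvPolynomial.eval (fun q => TF.rat ρ σ q.1 q.2) P) +
          fun σ : Γ => MvPolynomial.eval (fun q => TF.rat ρ σ q.1 q.2) Q := by
      funext σ
      rw [map_add, Pi.add_apply]
    rw [h1]
    exact Submodule.add_mem _ (Ent_mono (Nat.le_add_right _ _) hm)
      (Ent_mono (Nat.le_add_left _ _) hm')
  | mul_X P q hP =>
    obtain ⟨m, hm⟩ := hP
    refine ⟨m + 1, ?_⟩
    have h1 := Ent_mul hm (finSumFinEquiv (Sum.inl q.1)) (finSumFinEquiv (Sum.inl q.2))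
    have h2 : (fun σ : Γ => MvPolynomial.eval (fun r : Fin n × Fin n => TF.rat ρ σ r.1 r.2)
        (P * MvPolynomial.X q)) = fun σ : Γ => TF.rat (aug ρ) σ (finSumFinEquiv (Sum.inl q.1))
        (finSumFinEquiv (Sum.inl q.2)) *
          MvPolynomial.eval (fun r : Fin n × Fin n => TF.rat ρ σ r.1 r.2) P := by
      funext σ
      rw [map_mul, MvPolynomial.eval_X, aug_entry, mul_comm]
    rw [h2]
    exact h1

theorem Ent_linear {ρ : Γ →* GL (Fin n) ℤ_[p]} {m : ℕ} {f : Γ → ℚ_[p]} (hf : f ∈ Ent ρ m) :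
    ∃ L : Matrix (Fin ((n + 1) ^ m)) (Fin ((n + 1) ^ m)) ℚ_[p] →ₗ[ℚ_[p]] ℚ_[p],
      ∀ σ, f σ = L (TF.rat (tp m (aug ρ)) σ) := by
  unfold Ent at hf
  induction hf using Submodule.span_induction with
  | mem f hf =>
    obtain ⟨a, b, rfl⟩ := hf
    exact ⟨Matrix.entryLinearMap ℚ_[p] ℚ_[p] a b, fun σ => rfl⟩
  | zero => exact ⟨0, fun σ => rfl⟩
  | add f g _ _ hf hg =>
    obtain ⟨L, hL⟩ := hf
    obtain ⟨L', hL'⟩ := hg
    exact ⟨L + L', fun σ => by rw [Pi.add_apply, hL, hL', LinearMap.add_apply]⟩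
  | smul c f _ hf =>
    obtain ⟨L, hL⟩ := hf
    exact ⟨c • L, fun σ => by rw [Pi.smul_apply, hL, LinearMap.smul_apply]⟩

/-- **Zariski density.** -/
theorem zariski_of_gen {ρ : Γ →* GL (Fin n) ℤ_[p]} {x y : Γ}
    (h : ∀ m u, TF.rat (tp m (aug ρ)) u ∈
      Algebra.adjoin ℚ_[p] {TF.rat (tp m (aug ρ)) x, TF.rat (tp m (aug ρ)) y})
    (P : MvPolynomial (Fin n × Fin n) ℚ_[p])
    (hP : ∀ g ∈ Subgroup.closure {x, y},
      MvPolynomial.eval (fun q => TF.rat ρ g q.1 q.2) P = 0) (u : Γ) :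
    MvPolynomial.eval (fun q => TF.rat ρ u q.1 q.2) P = 0 := by
  obtain ⟨m, hm⟩ := poly_mem_Ent ρ P
  obtain ⟨L, hL⟩ := Ent_linear hm
  have h1 := h m u
  rw [← Subalgebra.mem_toSubmodule, Algebra.adjoin_eq_span] at h1
  have h2 : ∀ z ∈ Submodule.span ℚ_[p] (Submonoid.closure
      {TF.rat (tp m (aug ρ)) x, TF.rat (tp m (aug ρ)) y} :
        Set (Matrix (Fin ((n + 1) ^ m)) (Fin ((n + 1) ^ m)) ℚ_[p])), L z = 0 := by
    intro z hz
    induction hz using Submodule.span_induction with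
    | mem z hz =>
      have h3 : Submonoid.closure {TF.rat (tp m (aug ρ)) x, TF.rat (tp m (aug ρ)) y} ≤
          (Subgroup.closure {x, y}).toSubmonoid.map (TF.rat (tp m (aug ρ))) := by
        rw [Submonoid.closure_le]
        intro Z hZ
        rcases hZ with rfl | hZ
        · exact ⟨x, Subgroup.subset_closure (Set.mem_insert _ _), rfl⟩
        · rw [Set.mem_singleton_iff] at hZ
          rw [hZ]
          exact ⟨y, Subgroup.subset_closure (Set.mem_insert_of_mem _ (Set.mem_singleton _)), rfl⟩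
      obtain ⟨g, hg, rfl⟩ := h3 hz
      rw [← hL]
      exact hP g hg
    | zero => exact map_zero L
    | add a b _ _ ha hb => rw [map_add, ha, hb, add_zero]
    | smul c a _ ha => rw [map_smul, ha, smul_zero]
  rw [hL]
  exact h2 _ h1

end aug

end Pool.Agent.H850.MT2
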