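import Pool.Agent.H850.MT.Tns

/-!
# Tensor powers of semisimple representations are semisimple
-/

set_option autoImplicit false
set_option linter.unusedSectionVars false

namespace Pool.Agent.H850.MT2

open Pool.Agent.H850.TF Pool.Agent.H850.RG TensorProduct

variable {n : ℕ} {p : ℕ} [Fact p.Prime] {Γ : Type} [Group Γ] [TopologicalSpace Γ]

/-- the operators -/
noncomputable def opr {N : ℕ} (ρ : Γ →* GL (Fin N) ℤ_[p]) :
    Γ →* Module.End ℚ_[p] (Fin N → ℚ_[p]) :=
  ((Matrix.toLinAlgEquiv' : Matrix (Fin N) (Fin N) ℚ_[p] ≃ₐ[ℚ_[p]] _) :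
    Matrix (Fin N) (Fin N) ℚ_[p] →* Module.End ℚ_[p] (Fin N → ℚ_[p])).comp (TF.rat ρ)

theorem opr_apply {N : ℕ} (ρ : Γ →* GL (Fin N) ℤ_[p]) (σ : Γ) (v : Fin N → ℚ_[p]) :
    opr ρ σ v = (TF.rat ρ σ).mulVec v := rfl

/-- the representation over `ℚ_p` as a `GRep` -/
noncomputable def grep {N : ℕ} (ρ : Γ →* GL (Fin N) ℤ_[p])
    (hρ : Continuous fun σ => (ρ σ : Matrix (Fin N) (Fin N) ℤ_[p])) :
    Pool.Agent.W5h2.SL.GRep p Γ where
  V := Fin N → ℚ_[p]
  r := opr ρ
  cts := by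
    intro v φ
    have h0 : Continuous fun σ => TF.rat ρ σ := continuous_toQ.comp hρ
    have h1 : Continuous fun σ : Γ => (TF.rat ρ σ).mulVec v := h0.matrix_mulVec continuous_const
    exact (LinearMap.continuous_of_finiteDimensional φ).comp h1

theorem ss_of_CR {N : ℕ} {ρ : Γ →* GL (Fin N) ℤ_[p]}
    (hρ : Continuous fun σ => (ρ σ : Matrix (Fin N) (Fin N) ℤ_[p]))
    (h : CR (Set.range (TF.rat ρ))) : (grep ρ hρ).SS ⊥ ⊤ := by
  refine ⟨?_, fun _ _ _ => trivial, le_top, ?_⟩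
  · intro γ u hu
    rw [Submodule.mem_bot] at hu ⊢
    rw [hu, map_zero]
  · intro U hU _ _
    obtain ⟨U', hU', hc⟩ := h U (by
      rintro _ ⟨σ, rfl⟩ x hx
      exact hU σ x hx)
    refine ⟨U', fun γ u hu => hU' _ ⟨γ, rfl⟩ u hu, bot_le, le_top, hc.inf_eq_bot, hc.sup_eq_top⟩

theorem CR_of_ss {N : ℕ} {ρ : Γ →* GL (Fin N) ℤ_[p]}
    (hρ : Continuous fun σ => (ρ σ : Matrix (Fin N) (Fin N) ℤ_[p]))
    (h : (grep ρ hρ).SS ⊥ ⊤) : CR (Set.range (TF.rat ρ)) := by
  intro W hW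
  obtain ⟨U', hU', -, -, h1, h2⟩ := h.2.2.2 W (fun γ u hu => hW _ ⟨γ, rfl⟩ u hu) bot_le le_top
  refine ⟨U', ?_, isCompl_iff.2 ⟨disjoint_iff.2 h1, codisjoint_iff.2 h2⟩⟩
  rintro _ ⟨σ, rfl⟩ x hx
  exact hU' σ x hx

/-- the indices of the tensor product -/
def idx (n m : ℕ) : Fin n × Fin (n ^ m) ≃ Fin (n ^ (m + 1)) :=
  (Equiv.prodCongr (Equiv.refl (Fin n)) finFunctionFinEquiv.symm).trans
    ((Fin.consEquiv (fun _ : Fin (m + 1) => Fin n)).trans finFunctionFinEquiv)

theorem idx_apply (n m : ℕ) (i : Fin n) (f : Fin m → Fin n) :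
    idx n m (i, finFunctionFinEquiv f) =
      finFunctionFinEquiv (Fin.cons (α := fun _ => Fin n) i f : Fin (m + 1) → Fin n) := by
  unfold idx
  simp [Fin.consEquiv]

theorem tpm_succ {R : Type} [CommRing R] (m : ℕ) (A : Matrix (Fin n) (Fin n) R) (i i' : Fin n)
    (j j' : Fin (n ^ m)) : tpm (m + 1) A (idx n m (i, j)) (idx n m (i', j')) =
      A i i' * tpm m A j j' := by
  obtain ⟨f, rfl⟩ := finFunctionFinEquiv.surjective j
  obtain ⟨g, rfl⟩ := finFunctionFinEquiv.surjective j'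
  rw [idx_apply, idx_apply, tpm_apply, tpm_apply, Fin.prod_univ_succ]
  simp only [Fin.cons_zero, Fin.cons_succ]

/-- the isomorphism of the tensor product with the space of functions -/
noncomputable def tiso (K : Type) [Field K] (n m : ℕ) :
    (Fin n → K) ⊗[K] (Fin (n ^ m) → K) ≃ₗ[K] (Fin (n ^ (m + 1)) → K) :=
  (((Pi.basisFun K (Fin n)).tensorProduct (Pi.basisFun K (Fin (n ^ m)))).reindex
    (idx n m)).equivFun

theorem tiso_apply (K : Type) [Field K] (n m : ℕ) (v : Fin n → K) (w : Fin (n ^ m) → K)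
    (i : Fin n) (j : Fin (n ^ m)) : tiso K n m (v ⊗ₜ w) (idx n m (i, j)) = v i * w j := by
  unfold tiso
  rw [Module.Basis.equivFun_apply, Module.Basis.repr_reindex_apply, Equiv.symm_apply_apply,
    Module.Basis.tensorProduct_repr_tmul_apply, Pi.basisFun_repr, Pi.basisFun_repr]
  rw [smul_eq_mul, mul_comm]

variable [IsTopologicalGroup Γ] [CompactSpace Γ]

/-- **Tensor powers of semisimple representations of compact groups over `ℚ_p` are semisimple.** -/
theorem CR_tp (m : ℕ) {ρ : Γ →* GL (Fin n) ℤ_[p]}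
    (hρ : Continuous fun σ => (ρ σ : Matrix (Fin n) (Fin n) ℤ_[p]))
    (h : CR (Set.range (TF.rat ρ))) : CR (Set.range (TF.rat (tp m ρ))) := by
  induction m with
  | zero =>
    intro W _
    obtain ⟨W', hc⟩ := Submodule.exists_isCompl W
    refine ⟨W', ?_, hc⟩
    rintro _ ⟨σ, rfl⟩ x hx
    have h1 : TF.rat (tp 0 ρ) σ = 1 := by
      ext i j
      obtain ⟨f, rfl⟩ := finFunctionFinEquiv.surjective i
      obtain ⟨g, rfl⟩ := finFunctionFinEquiv.surjective j
      have h2 : f = g := Subsingleton.elim _ _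
      rw [rat_tp, tpm_apply, h2, Matrix.one_apply_eq, Finset.univ_eq_empty, Finset.prod_empty]
    rw [h1, Matrix.one_mulVec]
    exact hx
  | succ m ih =>
    rcases Nat.eq_zero_or_pos n with rfl | hn
    · intro W _
      refine ⟨W, ?_, ?_⟩
      · intro A _ x hx
        have h1 : IsEmpty (Fin (0 ^ (m + 1))) := by
          rw [zero_pow (Nat.succ_ne_zero m)]
          exact Fin.isEmpty
        rw [Subsingleton.elim (A.mulVec x) x]
        exact hx
      · have h1 : IsEmpty (Fin (0 ^ (m + 1))) := by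
          rw [zero_pow (Nat.succ_ne_zero m)]
          exact Fin.isEmpty
        have h2 : Subsingleton (Submodule ℚ_[p] (Fin (0 ^ (m + 1)) → ℚ_[p])) := by
          infer_instance
        exact isCompl_iff.2 ⟨disjoint_iff.2 (Subsingleton.elim _ _),
          codisjoint_iff.2 (Subsingleton.elim _ _)⟩
    · have hne : Nonempty (Fin n) := ⟨⟨0, hn⟩⟩
      refine CR_of_ss (continuous_tp (m + 1) hρ) ?_
      refine Pool.Agent.W5h2.SL.semi_prod (grep ρ hρ) (grep (tp m ρ) (continuous_tp m hρ))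
        (grep (tp (m + 1) ρ) (continuous_tp (m + 1) hρ)) (tiso ℚ_[p] n m) ?_ (ss_of_CR hρ h)
        (ss_of_CR (continuous_tp m hρ) ih) (by
          change Nontrivial (Fin n → ℚ_[p])
          infer_instance)
      intro γ v w
      change tiso ℚ_[p] n m (((TF.rat ρ γ).mulVec v) ⊗ₜ ((TF.rat (tp m ρ) γ).mulVec w)) =
        (TF.rat (tp (m + 1) ρ) γ).mulVec (tiso ℚ_[p] n m (v ⊗ₜ w))
      funext k
      obtain ⟨⟨i, j⟩, rfl⟩ := (idx n m).surjective k
      rw [tiso_apply, Matrix.mulVec, Matrix.mulVec, Matrix.mulVec, dotProduct, dotProduct,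
        dotProduct, Finset.sum_mul_sum, ← (idx n m).sum_comp, Fintype.sum_prod_type]
      refine Finset.sum_congr rfl fun i' _ => Finset.sum_congr rfl fun j' _ => ?_
      rw [tiso_apply, rat_tp, rat_tp, tpm_succ]
      ring

end Pool.Agent.H850.MT2
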