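import Pool.Agent.H850.MT.Semi

/-!
# The rank of `ad` in all tensor powers is determined by the type
-/

set_option autoImplicit false
set_option linter.unusedSectionVars false

namespace Pool.Agent.H850.MT2

open Pool.Agent.H850.TF Pool.Agent.H850.RG Polynomial

/-- the chosen polynomial of the tensor power -/
noncomputable def tpoly (N m : ℕ) (R : ℤ[X]) : ℤ[X] := (exists_tensor_poly N m R).choose

theorem tpoly_spec (N m : ℕ) (R : ℤ[X]) (K : Type) [Field K] [CharZero K]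
    (A : Matrix (Fin N) (Fin N) K) (h : A.charpoly = R.map (algebraMap ℤ K)) :
    (tpm m A).charpoly = (tpoly N m R).map (algebraMap ℤ K) :=
  (exists_tensor_poly N m R).choose_spec K A h

theorem charpoly_roots {N : ℕ} {F : Type} [Field F] (d : Fin N → F) :
    (Matrix.diagonal d).charpoly = ∏ i, (X - C (d i)) ∧
      (∏ i, (X - C (d i))).roots = Finset.univ.val.map d := by
  refine ⟨Matrix.charpoly_diagonal d, ?_⟩
  have h7 : ∏ i, (X - C (d i)) = ((Finset.univ.val.map d).map fun a => X - C a).prod := by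
    rw [Multiset.map_map]
    rfl
  rw [h7, Polynomial.roots_multiset_prod_X_sub_C]

/-- the roots of the polynomial of the tensor power -/
theorem tpoly_roots {N m : ℕ} {R : ℤ[X]} (hR : R.Monic) {lam : Fin N → AlgebraicClosure ℚ}
    (h : (R.map (algebraMap ℤ (AlgebraicClosure ℚ))).roots = Finset.univ.val.map lam) :
    ((tpoly N m R).map (algebraMap ℤ (AlgebraicClosure ℚ))).roots =
      Finset.univ.val.map fun j : Fin (N ^ m) => ∏ i, lam (finFunctionFinEquiv.symm j i) := by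
  have h1 : (Matrix.diagonal lam).charpoly = R.map (algebraMap ℤ (AlgebraicClosure ℚ)) := by
    have hs : (R.map (algebraMap ℤ (AlgebraicClosure ℚ))).Splits := IsAlgClosed.splits _
    rw [hs.eq_prod_roots, h, (hR.map _).leadingCoeff, C_1, one_mul, Multiset.map_map,
      (charpoly_roots lam).1]
    rfl
  have h2 : (tpm m (Matrix.diagonal lam)).charpoly =
      (tpoly N m R).map (algebraMap ℤ (AlgebraicClosure ℚ)) := by
    have h3 := tpoly_spec N m R (AlgebraicClosure ℚ) (Matrix.diagonal lam) (by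
      rw [h1]
      congr 1)
    rw [h3]
    congr 1
  rw [← h2, tpm_diagonal, (charpoly_roots _).1, (charpoly_roots _).2]

/-- the relations given by a type -/
def Rel {N D : ℕ} (S : Set (Fin N → Fin (D + 1))) (m : ℕ) (a b : Fin (N ^ m)) : Prop :=
  ∀ r ∈ S, ∑ i, (r (finFunctionFinEquiv.symm a i) : ℕ) =
    ∑ i, (r (finFunctionFinEquiv.symm b i) : ℕ)

open scoped Classical in
/-- the number of pairs which are not related -/
noncomputable def cnt {N D : ℕ} (S : Set (Fin N → Fin (D + 1))) (m : ℕ) : ℕ :=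
  ∑ a : Fin (N ^ m), (Finset.univ.filter fun b => ¬ Rel S m a b).card

section

variable {N D : ℕ} {S : Set (Fin N → Fin (D + 1))} {lam : Fin N → AlgebraicClosure ℚ}
  (hS : ∀ (m : ℕ) (f g : Fin m → Fin N),
        (∃ k : ℕ, k ≠ 0 ∧ (∏ i, lam (f i)) ^ k = (∏ i, lam (g i)) ^ k) ↔
          ∀ r ∈ S, ∑ i, (r (f i) : ℕ) = ∑ i, (r (g i) : ℕ))

include hS

theorem cnt_le (m : ℕ) {k : ℕ} (hk : k ≠ 0) [DecidableEq (AlgebraicClosure ℚ)] :
    cnt S m ≤ npairs (Finset.univ.val.map fun j : Fin (N ^ m) =>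
      ∏ i, lam (finFunctionFinEquiv.symm j i)) k := by
  classical
  rw [npairs_univ]
  unfold cnt
  refine Finset.sum_le_sum fun a _ => Finset.card_le_card fun b hb => ?_
  rw [Finset.mem_filter] at hb ⊢
  refine ⟨hb.1, fun h => hb.2 ?_⟩
  exact (hS m _ _).1 ⟨k, hk, h⟩

theorem exists_cnt (m : ℕ) [DecidableEq (AlgebraicClosure ℚ)] : ∃ k : ℕ, k ≠ 0 ∧
    npairs (Finset.univ.val.map fun j : Fin (N ^ m) =>
      ∏ i, lam (finFunctionFinEquiv.symm j i)) k ≤ cnt S m := by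
  classical
  have h1 : ∀ q : Fin (N ^ m) × Fin (N ^ m), ∃ k : ℕ, k ≠ 0 ∧ (Rel S m q.1 q.2 →
      (∏ i, lam (finFunctionFinEquiv.symm q.1 i)) ^ k =
        (∏ i, lam (finFunctionFinEquiv.symm q.2 i)) ^ k) := by
    intro q
    by_cases h : Rel S m q.1 q.2
    · obtain ⟨k, hk, h2⟩ := (hS m (finFunctionFinEquiv.symm q.1) (finFunctionFinEquiv.symm q.2)).2 h
      exact ⟨k, hk, fun _ => h2⟩
    · exact ⟨1, one_ne_zero, fun h' => (h h').elim⟩
  choose e he h2 using h1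
  refine ⟨∏ q, e q, Finset.prod_ne_zero_iff.2 fun q _ => he q, ?_⟩
  rw [npairs_univ]
  unfold cnt
  refine Finset.sum_le_sum fun a _ => Finset.card_le_card fun b hb => ?_
  rw [Finset.mem_filter] at hb ⊢
  refine ⟨hb.1, fun h => hb.2 ?_⟩
  have h3 := h2 (a, b) h
  obtain ⟨c, hc⟩ := Finset.dvd_prod_of_mem e (Finset.mem_univ (a, b))
  rw [hc, pow_mul, pow_mul, h3]

end

section rank

variable {N D : ℕ} {S : Set (Fin N → Fin (D + 1))} {lam : Fin N → AlgebraicClosure ℚ} {R : ℤ[X]}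
  {p : ℕ} [Fact p.Prime] {Γ : Type} [Group Γ] {ρ : Γ →* GL (Fin N) ℤ_[p]}

/-- the rank formula -/
theorem rk_tp (hR : R.Monic)
    (h : (R.map (algebraMap ℤ (AlgebraicClosure ℚ))).roots = Finset.univ.val.map lam) {σ : Γ}
    (hss' : CR ({TF.rat ρ σ⁻¹} : Set (Matrix (Fin N) (Fin N) ℚ_[p])))
    (hP : (TF.rat ρ σ⁻¹).charpoly = R.map (algebraMap ℤ ℚ_[p])) (m k : ℕ)
    [DecidableEq (AlgebraicClosure ℚ)] :
    rk (TF.rat (tp m ρ) (σ ^ k)) = npairs (Finset.univ.val.map fun j : Fin (N ^ m) =>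
      ∏ i, lam (finFunctionFinEquiv.symm j i)) k := by
  rw [← rk_inv, ← inv_pow, map_pow, rat_tp, rk_pow_eq_npairs (CR_tpm m hss') (tpoly N m R)
    (tpoly_spec N m R _ _ hP) k, tpoly_roots hR h]

theorem rk_ge (hS : ∀ (m : ℕ) (f g : Fin m → Fin N),
        (∃ k : ℕ, k ≠ 0 ∧ (∏ i, lam (f i)) ^ k = (∏ i, lam (g i)) ^ k) ↔
          ∀ r ∈ S, ∑ i, (r (f i) : ℕ) = ∑ i, (r (g i) : ℕ)) (hR : R.Monic)
    (h : (R.map (algebraMap ℤ (AlgebraicClosure ℚ))).roots = Finset.univ.val.map lam) {σ : Γ}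
    (hss' : CR ({TF.rat ρ σ⁻¹} : Set (Matrix (Fin N) (Fin N) ℚ_[p])))
    (hP : (TF.rat ρ σ⁻¹).charpoly = R.map (algebraMap ℤ ℚ_[p])) (m : ℕ) :
    (∀ k : ℕ, k ≠ 0 → cnt S m ≤ rk (TF.rat (tp m ρ) (σ ^ k))) ∧
      ∃ k : ℕ, k ≠ 0 ∧ rk (TF.rat (tp m ρ) (σ ^ k)) ≤ cnt S m := by
  classical
  refine ⟨fun k hk => ?_, ?_⟩
  · rw [rk_tp hR h hss' hP]
    exact cnt_le hS m hk
  · obtain ⟨k, hk, h1⟩ := exists_cnt hS m
    refine ⟨k, hk, ?_⟩
    rw [rk_tp hR h hss' hP]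
    exact h1

end rank

end Pool.Agent.H850.MT2
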