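import Pool.Agent.H850.MT.Types

/-!
# The type of a Frobenius polynomial
-/

set_option autoImplicit false
set_option linter.unusedSectionVars false

namespace Pool.Agent.H850.MT2

open NumberField IsDedekindDomain Polynomial

attribute [-instance] DivisionRing.toRatAlgebra in
theorem finrank_splitting_le' (P : ℚ[X]) :
    Module.finrank ℚ P.SplittingField ≤ P.natDegree.factorial := by
  have hn : Normal ℚ P.SplittingField := Normal.of_isSplittingField P
  have hs : Algebra.IsSeparable ℚ P.SplittingField := inferInstance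
  have hg : IsGalois ℚ P.SplittingField := IsGalois.mk
  rw [← IsGalois.card_aut_eq_finrank]
  have hf : Fact ((P.map (algebraMap ℚ (AlgebraicClosure ℚ))).Splits) := ⟨IsAlgClosed.splits _⟩
  have h1 : Function.Injective (Polynomial.Gal.galActionHom P (AlgebraicClosure ℚ)) :=
    Polynomial.Gal.galActionHom_injective P _
  have hfin : Finite (P.rootSet (AlgebraicClosure ℚ)) := Polynomial.rootSet_finite P _
  have h2 : Nat.card P.Gal ≤ Nat.card (Equiv.Perm (P.rootSet (AlgebraicClosure ℚ))) :=
    Nat.card_le_card_of_injective _ h1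
  rw [Nat.card_perm] at h2
  refine h2.trans (Nat.factorial_le ?_)
  exact P.ncard_rootSet_le (AlgebraicClosure ℚ)

theorem finrank_splitting_le (P : ℚ[X]) :
    Module.finrank ℚ P.SplittingField ≤ P.natDegree.factorial := by
  have h := finrank_splitting_le' P
  convert h

theorem map_aux {E' : Type} [Field E'] [CharZero E'] {Q : ℚ[X]} {P : ℤ[X]}
    (h : Q = P.map (algebraMap ℤ ℚ)) (f : ℚ →+* E') : P.map (algebraMap ℤ E') = Q.map f := by
  subst h
  rw [Polynomial.map_map]
  congr 1
  exact RingHom.ext_int _ _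

/-- the roots of a polynomial as a function -/
theorem exists_enum_roots {E : Type} [Field E] {n : ℕ} {Q : E[X]} (hs : Q.Splits)
    (hn : Q.natDegree = n) : ∃ lam : Fin n → E, Q.roots = Finset.univ.val.map lam := by
  have h1 : Q.roots.card = n := by rw [← hn, hs.natDegree_eq_card_roots]
  obtain ⟨l, hl⟩ := Quot.exists_rep Q.roots
  have h2 : l.length = n := by
    rw [← h1, ← hl]
    rfl
  subst h2
  refine ⟨l.get, ?_⟩
  rw [← hl]
  have h3 : (Finset.univ.val.map l.get : Multiset E) = (List.ofFn l.get : List E) := by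
    rw [Fin.univ_val_map]
  rw [h3, List.ofFn_get]
  rfl

/-- **Frobenius polynomials have finitely many types.** -/
theorem exists_poly_type (n U : ℕ) : ∃ D : ℕ, ∀ (p : ℕ), p.Prime → ∀ u ≤ U, ∀ P : ℤ[X],
    P.Monic → P.natDegree = n → (∀ z ∈ (P.map (algebraMap ℤ ℂ)).roots, ‖z‖ ^ 2 = (p : ℝ) ^ u) →
    ∃ (lam : Fin (n + 1) → AlgebraicClosure ℚ) (S : Set (Fin (n + 1) → Fin (D + 1))),
      ((P * (X - 1)).map (algebraMap ℤ (AlgebraicClosure ℚ))).roots = Finset.univ.val.map lam ∧
      ∀ (m : ℕ) (f g : Fin m → Fin (n + 1)),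
        (∃ k : ℕ, k ≠ 0 ∧ (∏ i, lam (f i)) ^ k = (∏ i, lam (g i)) ^ k) ↔
          ∀ r ∈ S, ∑ i, (r (f i) : ℕ) = ∑ i, (r (g i) : ℕ) := by
  obtain ⟨D, hD⟩ := exists_type (n + 1) n.factorial U
  refine ⟨D, fun p hp u hu P hP hn hz => ?_⟩
  obtain ⟨Q, hQ⟩ : ∃ Q : ℚ[X], Q = P.map (algebraMap ℤ ℚ) := ⟨_, rfl⟩
  let E := Q.SplittingField
  have hE : NumberField E := { to_charZero := inferInstance, to_finiteDimensional := inferInstance }
  have hQn : Q.natDegree = n := by
    rw [hQ, Polynomial.natDegree_map_eq_of_injective (algebraMap ℤ ℚ).injective_int, hn]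
  have hB : Module.finrank ℚ E ≤ n.factorial := by
    have h1 := finrank_splitting_le Q
    rwa [hQn] at h1
  have hmapE : P.map (algebraMap ℤ E) = Q.map (algebraMap ℚ E) := map_aux hQ _
  have hs : (P.map (algebraMap ℤ E)).Splits := by
    rw [hmapE]
    exact Polynomial.SplittingField.splits Q
  have hnE : (P.map (algebraMap ℤ E)).natDegree = n := by
    rw [Polynomial.natDegree_map_eq_of_injective (algebraMap ℤ E).injective_int, hn]
  obtain ⟨lam, hlam⟩ := exists_enum_roots hs hnE
  have hroot : ∀ i, lam i ∈ (P.map (algebraMap ℤ E)).roots := by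
    intro i
    rw [hlam, Multiset.mem_map]
    exact ⟨i, Finset.mem_univ i, rfl⟩
  have hroot' : ∀ i, (P.map (algebraMap ℤ E)).eval (lam i) = 0 := fun i =>
    (Polynomial.mem_roots'.1 (hroot i)).2
  let lam' : Fin (n + 1) → E := Fin.snoc (α := fun _ => E) lam 1
  let W : Fin (n + 1) → ℕ := Fin.snoc (α := fun _ => ℕ) (fun _ => u) 0
  obtain ⟨S, hS⟩ := hD E hB p hp lam' W (by
    intro i
    refine Fin.lastCases ?_ (fun i => ?_) i
    · simp only [lam', Fin.snoc_last]
      exact isIntegral_one
    · simp only [lam', Fin.snoc_castSucc]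
      refine ⟨P, hP, ?_⟩
      rw [← Polynomial.eval_map]
      exact hroot' i) (by
    intro i
    refine Fin.lastCases ?_ (fun i => ?_) i
    · simp only [W, Fin.snoc_last]
      exact Nat.zero_le _
    · simp only [W, Fin.snoc_castSucc]
      exact hu) (by
    intro i σ
    refine Fin.lastCases ?_ (fun i => ?_) i
    · simp only [W, lam', Fin.snoc_last]
      rw [map_one, norm_one, one_pow, pow_zero]
    · simp only [W, lam', Fin.snoc_castSucc]
      apply hz
      rw [Polynomial.mem_roots']
      refine ⟨(hP.map _).ne_zero, ?_⟩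
      have h1 : algebraMap ℤ ℂ = σ.comp (algebraMap ℤ E) := RingHom.ext_int _ _
      rw [Polynomial.IsRoot.def, h1, ← Polynomial.map_map, Polynomial.eval_map_apply, hroot' i,
        map_zero])
  have halg : Algebra.IsAlgebraic ℚ E := inferInstance
  let ι : E →+* AlgebraicClosure ℚ :=
    (IsAlgClosed.lift (R := ℚ) (M := AlgebraicClosure ℚ) (S := E)).toRingHom
  refine ⟨fun i => ι (lam' i), S, ?_, fun m f g => ?_⟩
  · have h1 : algebraMap ℤ (AlgebraicClosure ℚ) = ι.comp (algebraMap ℤ E) := RingHom.ext_int _ _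
    have h2 : ((P * (X - 1)).map (algebraMap ℤ E)).roots = Finset.univ.val.map lam' := by
      have h3 : (P * (X - 1)).map (algebraMap ℤ E) = (P.map (algebraMap ℤ E)) * (X - C 1) := by
        rw [Polynomial.map_mul, Polynomial.map_sub, Polynomial.map_X, Polynomial.map_one, C_1]
      rw [h3, Polynomial.roots_mul (mul_ne_zero (hP.map _).ne_zero (X_sub_C_ne_zero _)),
        Polynomial.roots_X_sub_C, hlam]
      rw [Fin.univ_val_map, Fin.univ_val_map, List.ofFn_succ']
      simp only [lam', Fin.snoc_castSucc, Fin.snoc_last, List.concat_eq_append,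
        ← Multiset.coe_add]
      rfl
    have h4 : ((P * (X - 1)).map (algebraMap ℤ E)).Splits := by
      rw [Polynomial.map_mul]
      refine Splits.mul hs ?_
      rw [Polynomial.map_sub, Polynomial.map_X, Polynomial.map_one, ← C_1]
      exact Splits.X_sub_C 1
    rw [h1, ← Polynomial.map_map, h4.roots_map, h2, Multiset.map_map]
    rfl
  · rw [← hS m f g]
    have h1 : ∀ f : Fin m → Fin (n + 1), (∏ i, ι (lam' (f i))) = ι (∏ i, lam' (f i)) := fun f =>
      (map_prod ι _ _).symm
    rw [h1, h1]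
    constructor
    · rintro ⟨k, hk, h⟩
      exact ⟨k, hk, ι.injective (by rw [map_pow, map_pow, h])⟩
    · rintro ⟨k, hk, h⟩
      exact ⟨k, hk, by rw [← map_pow, ← map_pow, h]⟩

end Pool.Agent.H850.MT2
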