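import Pool.Agent.H850.MT.Chev

/-!
# Multilinear forms fixed by two elements
-/

set_option autoImplicit false
set_option linter.unusedSectionVars false

namespace Pool.Agent.H850.MT2

open Pool.Agent.H850.TF Pool.Agent.H850.RG Module

section form

/-- pairs of index functions -/
def pairEquiv (n m : ℕ) : (Fin m → Fin n) × (Fin m → Fin n) ≃ (Fin m × Fin 2 → Fin n) where
  toFun q l := ![q.1 l.1, q.2 l.1] l.2
  invFun h := (fun i => h (i, 0), fun i => h (i, 1))
  left_inv q := by
    ext i <;> simp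
  right_inv h := by
    funext ⟨i, j⟩
    fin_cases j <;> simp

variable {K : Type} [Field K] {n m : ℕ} {V : Type} [AddCommGroup V] [Module K V]
  (b : Basis (Fin n) K V)

/-- the matrix of a form -/
noncomputable def fmat (φ : MultilinearMap K (fun _ : Fin m × Fin 2 => V) K) :
    Matrix (Fin m → Fin n) (Fin m → Fin n) K :=
  Matrix.of fun f g => φ fun l => b (pairEquiv n m (f, g) l)

theorem form_apply (A : Matrix (Fin n) (Fin n) K)
    (φ : MultilinearMap K (fun _ : Fin m × Fin 2 => V) K) (f g : Fin m → Fin n) :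
    φ (fun l => Matrix.toLin b b A (b (pairEquiv n m (f, g) l))) =
      ((tpf m A).transpose * fmat b φ * tpf m A) f g := by
  have h1 : ∀ j, Matrix.toLin b b A (b j) = ∑ i, A i j • b i := fun j => Matrix.toLin_self b b A j
  simp only [h1]
  rw [MultilinearMap.map_sum]
  have h2 : ∀ r : Fin m × Fin 2 → Fin n,
      (φ fun l => A (r l) (pairEquiv n m (f, g) l) • b (r l)) =
        (∏ l, A (r l) (pairEquiv n m (f, g) l)) * φ fun l => b (r l) := by
    intro r
    rw [MultilinearMap.map_smul_univ, smul_eq_mul]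
  rw [Finset.sum_congr rfl fun r _ => h2 r, ← (pairEquiv n m).sum_comp, Fintype.sum_prod_type,
    Matrix.mul_assoc, Matrix.mul_apply]
  refine Finset.sum_congr rfl fun f' _ => ?_
  rw [Matrix.mul_apply, Finset.mul_sum]
  refine Finset.sum_congr rfl fun g' _ => ?_
  rw [Fintype.prod_prod_type, Matrix.transpose_apply, tpf_apply, tpf_apply]
  simp only [Fin.prod_univ_two]
  rw [Finset.prod_mul_distrib]
  have h3 : ∀ (f g : Fin m → Fin n) (x : Fin m), pairEquiv n m (f, g) (x, 0) = f x := fun _ _ _ => rfl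
  have h4 : ∀ (f g : Fin m → Fin n) (x : Fin m), pairEquiv n m (f, g) (x, 1) = g x := fun _ _ _ => rfl
  simp only [h3, h4]
  unfold fmat
  rw [Matrix.of_apply]
  ring

theorem fixed_iff (A : Matrix (Fin n) (Fin n) K) (c : K)
    (φ : MultilinearMap K (fun _ : Fin m × Fin 2 => V) K) :
    (∀ v, φ (fun l => Matrix.toLin b b A (v l)) = c * φ v) ↔
      (tpf m A).transpose * fmat b φ * tpf m A = c • fmat b φ := by
  constructor
  · intro h
    ext f g
    rw [← form_apply, h, Matrix.smul_apply, smul_eq_mul]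
    rfl
  · intro h v
    have h1 : φ.compLinearMap (fun _ => Matrix.toLin b b A) = c • φ := by
      refine Basis.ext_multilinear (fun _ => b) fun r => ?_
      obtain ⟨⟨f, g⟩, rfl⟩ := (pairEquiv n m).surjective r
      rw [MultilinearMap.compLinearMap_apply, form_apply, h, smul_apply, Matrix.smul_apply]
      rfl
    have h2 := congrArg (fun ψ : MultilinearMap K (fun _ : Fin m × Fin 2 => V) K => ψ v) h1
    exact h2

variable {b}

theorem fixed_iff_commute {A J J' : Matrix (Fin n) (Fin n) K} {c : K} (hc : c ≠ 0)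
    (hJ : J' * J = 1) (hA : A.transpose * J * A = c • J)
    (M : Matrix (Fin m → Fin n) (Fin m → Fin n) K) :
    (tpf m A).transpose * M * tpf m A = c ^ m • M ↔
      (tpf m J' * M) * tpf m A = tpf m A * (tpf m J' * M) := by
  have hJ' : J * J' = 1 := mul_eq_one_comm.1 hJ
  have e1 : tpf m J' * tpf m J = 1 := by rw [← tpf_mul, hJ, tpf_one]
  have e2 : tpf m J * tpf m J' = 1 := by rw [← tpf_mul, hJ', tpf_one]
  have e3 : (tpf m A).transpose * tpf m J * tpf m A = c ^ m • tpf m J := by
    rw [← tpf_transpose, ← tpf_mul, ← tpf_mul, hA, tpf_smul]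
  have hcm : c ^ m ≠ 0 := pow_ne_zero m hc
  have hM : M = tpf m J * (tpf m J' * M) := by rw [← mul_assoc, e2, one_mul]
  generalize tpf m J' * M = N at hM ⊢
  set T := tpf m A with hT
  have e4 : (T.transpose * tpf m J) * (T * ((c ^ m)⁻¹ • tpf m J')) = 1 := by
    rw [← mul_assoc, e3, smul_mul_smul_comm, mul_inv_cancel₀ hcm, one_smul, e2]
  have e5 : (T * ((c ^ m)⁻¹ • tpf m J')) * (T.transpose * tpf m J) = 1 := mul_eq_one_comm.1 e4
  constructor
  · intro h
    rw [hM] at h
    have h1 : (T.transpose * tpf m J) * (N * T) = (T.transpose * tpf m J) * (T * N) := by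
      calc (T.transpose * tpf m J) * (N * T) = T.transpose * (tpf m J * N) * T := by
            simp only [mul_assoc]
        _ = (T.transpose * tpf m J * T) * N := by rw [h, e3, smul_mul_assoc]
        _ = _ := by simp only [mul_assoc]
    have h2 := congrArg (fun Z => (T * ((c ^ m)⁻¹ • tpf m J')) * Z) h1
    simp only [← mul_assoc] at h2
    simp only [← mul_assoc] at e5
    rw [e5, one_mul, one_mul] at h2
    exact h2
  · intro h
    rw [hM]
    calc T.transpose * (tpf m J * N) * T = (T.transpose * tpf m J) * (N * T) := by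
          simp only [mul_assoc]
      _ = (T.transpose * tpf m J * T) * N := by rw [h]; simp only [mul_assoc]
      _ = c ^ m • (tpf m J * N) := by rw [e3, smul_mul_assoc]

end form

section rep

variable {n m : ℕ} {p : ℕ} [Fact p.Prime] {Γ : Type} [Group Γ] {V : Type} [AddCommGroup V]
  [Module ℚ_[p] V] (b : Basis (Fin n) ℚ_[p] V)

/-- the form is multiplied by the `m`-th power of the character -/
def FixedBy (ρ : Γ →* GL (Fin n) ℤ_[p]) (χ : Γ → ℚ_[p])
    (φ : MultilinearMap ℚ_[p] (fun _ : Fin m × Fin 2 => V) ℚ_[p]) (σ : Γ) : Prop :=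
  ∀ v, φ (fun l => Matrix.toLin b b (TF.rat ρ σ) (v l)) = χ σ ^ m * φ v

/-- **Forms fixed by two elements generating the algebra of the tensor power are fixed by the
group.** -/
theorem fixed_of_pair {ρ : Γ →* GL (Fin n) ℤ_[p]} {χ : Γ → ℚ_[p]} (hχ : ∀ σ, χ σ ≠ 0)
    {J J' : Matrix (Fin n) (Fin n) ℚ_[p]} (hJ : J' * J = 1)
    (hρJ : ∀ σ, (TF.rat ρ σ).transpose * J * TF.rat ρ σ = χ σ • J) {x y : Γ} {σ : Γ}
    (h : TF.rat (tp m ρ) σ ∈ Algebra.adjoin ℚ_[p] {TF.rat (tp m ρ) x, TF.rat (tp m ρ) y})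
    {φ : MultilinearMap ℚ_[p] (fun _ : Fin m × Fin 2 => V) ℚ_[p]} (hx : FixedBy b ρ χ φ x)
    (hy : FixedBy b ρ χ φ y) : FixedBy b ρ χ φ σ := by
  unfold FixedBy at hx hy ⊢
  rw [fixed_iff b, fixed_iff_commute (hχ _) hJ (hρJ _)] at hx hy ⊢
  set N := tpf m J' * fmat b φ
  have key : ∀ z, N * tpf m (TF.rat ρ z) = tpf m (TF.rat ρ z) * N ↔
      Commute (TF.rat (tp m ρ) z)
        (Matrix.reindexAlgEquiv ℚ_[p] ℚ_[p] finFunctionFinEquiv N) := by
    intro z
    have h1 : TF.rat (tp m ρ) z = Matrix.reindexAlgEquiv ℚ_[p] ℚ_[p] finFunctionFinEquiv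
        (tpf m (TF.rat ρ z)) := rat_tp m ρ z
    rw [h1]
    unfold Commute SemiconjBy
    rw [← map_mul, ← map_mul]
    constructor
    · intro h2
      rw [h2]
    · intro h2
      exact ((Matrix.reindexAlgEquiv ℚ_[p] ℚ_[p] finFunctionFinEquiv).injective h2).symm
  rw [key] at hx hy ⊢
  refine commute_of_adjoin ?_ h
  rintro A (rfl | hA)
  · exact hx
  · rw [Set.mem_singleton_iff] at hA
    rw [hA]
    exact hy

end rep

end Pool.Agent.H850.MT2
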