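import Pool.Agent.H850.MT.Form

/-!
# Two Frobenius elements at one place generate the algebra of the tensor power
-/

set_option autoImplicit false
set_option linter.unusedSectionVars false

namespace Pool.Agent.H850.MT2

open Pool.Agent.H850.TF Pool.Agent.H850.RG MeasureTheory Topology Filter NumberField
  IsDedekindDomain Polynomial
open Pool.Agent.W401.Cheb (GK IsFrob IsInert dens)

variable {K : Type} [Field K] [NumberField K] {n : ℕ}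
  (ρ : ∀ ℓ : ℕ, [Fact ℓ.Prime] → GK K →* GL (Fin n) ℤ_[ℓ])

/-- for all primes at once, the algebra of the tensor power is generated by two elements -/
def Gen (m : ℕ) (v : HeightOneSpectrum (𝓞 K)) (α γ : GK K) : Prop :=
  ∀ (ℓ : ℕ) [Fact ℓ.Prime], (ℓ : 𝓞 K) ∉ v.asIdeal → CR (Set.range (TF.rat (ρ ℓ))) →
    (∀ σ, σ ∈ conn (ρ ℓ)) → ∀ k : ℕ, k ≠ 0 → ∀ u, TF.rat (tp m (ρ ℓ)) u ∈
      Algebra.adjoin ℚ_[ℓ] {TF.rat (tp m (ρ ℓ)) (α ^ k), TF.rat (tp m (ρ ℓ)) ((γ * α * γ⁻¹) ^ k)}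

/-- the place is good in degree `m` -/
def GoodAt [MeasurableSpace (GK K)] (μ : Measure (GK K)) (m : ℕ)
    (v : HeightOneSpectrum (𝓞 K)) : Prop :=
  ∀ α, IsFrob v α → ∀ᵐ γ ∂μ, Gen ρ m v α γ

theorem gen_null [MeasurableSpace (GK K)] [BorelSpace (GK K)] (μ : Measure (GK K))
    [μ.IsHaarMeasure] [μ.OuterRegular] {S : Set (HeightOneSpectrum (𝓞 K))} (hS : S.Finite)
    (P : HeightOneSpectrum (𝓞 K) → ℤ[X])
    (hρ : ∀ (ℓ : ℕ) [Fact ℓ.Prime], Continuous fun σ => (ρ ℓ σ : Matrix (Fin n) (Fin n) ℤ_[ℓ]))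
    (hI : ∀ (ℓ : ℕ) [Fact ℓ.Prime], ∀ v ∉ S, (ℓ : 𝓞 K) ∉ v.asIdeal → ∀ σ, IsInert v σ → ρ ℓ σ = 1)
    (hP : ∀ (ℓ : ℕ) [Fact ℓ.Prime], ∀ v ∉ S, (ℓ : 𝓞 K) ∉ v.asIdeal → ∀ σ, IsFrob v σ →
      (TF.rat (ρ ℓ) σ⁻¹).charpoly = (P v).map (algebraMap ℤ ℚ_[ℓ])) (m : ℕ) :
    Tendsto (dens fun v => ¬ GoodAt ρ μ m v) atTop (𝓝 0) := by
  have h1 := compat_regular (fun ℓ _ => tp m (ρ ℓ)) μ hS
    (fun v => (exists_tensor_poly n m (P v)).choose) (fun ℓ _ => continuous_tp m (hρ ℓ)) (by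
      intro ℓ hℓ v hv hvℓ σ hσ
      exact tp_eq_one m (hI ℓ v hv hvℓ σ hσ)) (by
      intro ℓ hℓ v hv hvℓ σ hσ
      rw [rat_tp]
      exact (exists_tensor_poly n m (P v)).choose_spec ℚ_[ℓ] _ (hP ℓ v hv hvℓ σ hσ))
  refine squeeze_zero (fun N => dens_nonneg _ N) (fun N => dens_mono (fun v hv => ?_) N) h1
  intro hgood
  apply hv
  intro α hα
  have h2 : ∀ ℓ : ℕ, ∀ᵐ γ ∂μ, ∀ (_ : Fact ℓ.Prime), (ℓ : 𝓞 K) ∉ v.asIdeal →
      CR (Set.range (TF.rat (ρ ℓ))) → (∀ σ, σ ∈ conn (ρ ℓ)) → ∀ k : ℕ, k ≠ 0 → ∀ u,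
        TF.rat (tp m (ρ ℓ)) u ∈ Algebra.adjoin ℚ_[ℓ] {TF.rat (tp m (ρ ℓ)) (α ^ k),
          TF.rat (tp m (ρ ℓ)) ((γ * α * γ⁻¹) ^ k)} := by
    intro ℓ
    by_cases hℓ : ℓ.Prime
    · have hfact : Fact ℓ.Prime := ⟨hℓ⟩
      by_cases hcond : (ℓ : 𝓞 K) ∉ v.asIdeal ∧ CR (Set.range (TF.rat (ρ ℓ))) ∧
          ∀ σ, σ ∈ conn (ρ ℓ)
      · obtain ⟨hvℓ, hss, hc⟩ := hcond
        have hss' := CR_tp m (hρ ℓ) hss
        have hc' : ∀ σ, σ ∈ conn (tp m (ρ ℓ)) := by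
          have h3 : ConnOn (ρ ℓ) ⊤ := fun D hD V hV hDV u _ =>
            connOn_conn (ρ ℓ) D hD V hV hDV u (hc u)
          exact fun σ => (connOn_tp m h3).le trivial
        have h3 := hgood ℓ hvℓ hss' hc' α hα
        filter_upwards [(connOn_conn (tp m (ρ ℓ))).conj_regular μ (continuous_tp m (hρ ℓ))
          (isOpen_conn (tp m (ρ ℓ))) hss' (hc' α) h3.1 fun m hm g _ => h3.2 m hm g]
          with γ hγ _ _ _ _ k hk u
        rw [conj_pow]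
        exact hγ (hc' γ) k hk u (hc' u)
      · refine Filter.Eventually.of_forall fun γ _ h2 h3 h4 => ?_
        exact (hcond ⟨h2, h3, h4⟩).elim
    · exact Filter.Eventually.of_forall fun γ h2 => (hℓ h2.out).elim
  filter_upwards [ae_all_iff.2 h2] with γ hγ
  exact fun ℓ hℓ h2 h3 h4 => hγ ℓ hℓ h2 h3 h4

/-- one set of places for all degrees -/
theorem universal [MeasurableSpace (GK K)] [BorelSpace (GK K)] (μ : Measure (GK K))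
    [μ.IsHaarMeasure] [μ.OuterRegular] {S : Set (HeightOneSpectrum (𝓞 K))} (hS : S.Finite)
    (P : HeightOneSpectrum (𝓞 K) → ℤ[X])
    (hρ : ∀ (ℓ : ℕ) [Fact ℓ.Prime], Continuous fun σ => (ρ ℓ σ : Matrix (Fin n) (Fin n) ℤ_[ℓ]))
    (hI : ∀ (ℓ : ℕ) [Fact ℓ.Prime], ∀ v ∉ S, (ℓ : 𝓞 K) ∉ v.asIdeal → ∀ σ, IsInert v σ → ρ ℓ σ = 1)
    (hP : ∀ (ℓ : ℕ) [Fact ℓ.Prime], ∀ v ∉ S, (ℓ : 𝓞 K) ∉ v.asIdeal → ∀ σ, IsFrob v σ →
      (TF.rat (ρ ℓ) σ⁻¹).charpoly = (P v).map (algebraMap ℤ ℚ_[ℓ])) (m₀ : ℕ) :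
    ∃ Q : HeightOneSpectrum (𝓞 K) → Prop, Tendsto (dens Q) atTop (𝓝 1) ∧
      (∀ v, Q v → ∀ m ≤ m₀, GoodAt ρ μ m v) ∧ ∀ m, {v | Q v ∧ ¬ GoodAt ρ μ m v}.Finite := by
  obtain ⟨B, hB, hBf⟩ := exists_pseudo (fun m v => ¬ GoodAt ρ μ m v)
    (gen_null ρ μ hS P hρ hI hP)
  have h1 : Tendsto (dens fun v => B v ∨ ∃ m ≤ m₀, ¬ GoodAt ρ μ m v) atTop (𝓝 0) := by
    have h2 : ∀ m₀ : ℕ, Tendsto (dens fun v => ∃ m ≤ m₀, ¬ GoodAt ρ μ m v) atTop (𝓝 0) := by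
      intro m₀
      induction m₀ with
      | zero =>
        refine squeeze_zero (fun N => dens_nonneg _ N)
          (fun N => dens_mono (fun v hv => ?_) N) (gen_null ρ μ hS P hρ hI hP 0)
        obtain ⟨m, hm, h⟩ := hv
        rw [Nat.le_zero] at hm
        exact hm ▸ h
      | succ m₀ ih =>
        have h3 := ih.add (gen_null ρ μ hS P hρ hI hP (m₀ + 1))
        rw [add_zero] at h3
        refine squeeze_zero (fun N => dens_nonneg _ N) (fun N => ?_) h3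
        refine le_trans (dens_mono (fun v hv => ?_) N) (dens_or _ _ N)
        obtain ⟨m, hm, h⟩ := hv
        rcases Nat.lt_or_ge m (m₀ + 1) with h4 | h4
        · exact Or.inl ⟨m, Nat.lt_succ_iff.1 h4, h⟩
        · have h5 : m = m₀ + 1 := le_antisymm hm h4
          exact Or.inr (h5 ▸ h)
    have h3 := hB.add (h2 m₀)
    rw [add_zero] at h3
    refine squeeze_zero (fun N => dens_nonneg _ N) (fun N => ?_) h3
    exact dens_or _ _ N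
  refine ⟨fun v => ¬ (B v ∨ ∃ m ≤ m₀, ¬ GoodAt ρ μ m v), dens_compl h1, ?_, ?_⟩
  · intro v hv m hm
    by_contra h
    exact hv (Or.inr ⟨m, hm, h⟩)
  · intro m
    refine (hBf m).subset ?_
    rintro v ⟨hv, hg⟩
    exact ⟨hg, fun h => hv (Or.inl h)⟩

end Pool.Agent.H850.MT2
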