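import Pool.Agent.H850.MT.Dual
import Pool.Agent.H850.MT.Enum

/-!
# Tensor powers of semisimple matrices
-/

set_option autoImplicit false
set_option linter.unusedSectionVars false

namespace Pool.Agent.H850.MT2

open Pool.Agent.H850.TF Pool.Agent.H850.RG Polynomial

section poly

variable {N : ℕ} {K : Type} [Field K] [CharZero K]

theorem bc_aeval {F : Type} [Field F] [Algebra K F] (T : Matrix (Fin N) (Fin N) K) (q : K[X]) :
    (bc (aeval T q) : Matrix (Fin N) (Fin N) F) = aeval (bc T : Matrix (Fin N) (Fin N) F) q := by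
  rw [aeval_def, aeval_def, hom_eval₂]
  congr 1
  refine RingHom.ext fun c => ?_
  rw [RingHom.comp_apply]
  ext i j
  rw [bc_apply, Matrix.algebraMap_matrix_apply, Matrix.algebraMap_matrix_apply]
  split_ifs
  · rfl
  · exact map_zero _

theorem aeval_conj {F : Type} [Field F] [Algebra K F] {Q Q' : Matrix (Fin N) (Fin N) F}
    (h1 : Q * Q' = 1) (h2 : Q' * Q = 1) (d : Fin N → F) (q : K[X]) :
    aeval (Q * Matrix.diagonal d * Q') q = Q * Matrix.diagonal (fun j => aeval (d j) q) * Q' := by
  induction q using Polynomial.induction_on' with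
  | add p q hp hq =>
    rw [map_add, hp, hq, ← add_mul, ← mul_add, Matrix.diagonal_add]
    congr 3
    funext j
    rw [map_add]
  | monomial k c =>
    rw [aeval_monomial, conj_pow' h1 h2, Matrix.diagonal_pow]
    have h3 : (fun j => aeval (d j) (monomial k c)) = c • (fun j => d j ^ k) := by
      funext j
      rw [aeval_monomial, Pi.smul_apply, Algebra.smul_def]
    rw [h3, Matrix.diagonal_smul, ← Algebra.smul_def, mul_smul_comm, smul_mul_assoc]
    rfl

/-- a matrix which is diagonalizable over an extension is semisimple -/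
theorem CR_of_diag {F : Type} [Field F] [Algebra K F] [Algebra.IsAlgebraic K F]
    {T : Matrix (Fin N) (Fin N) K} {Q Q' : Matrix (Fin N) (Fin N) F}
    (h1 : Q * Q' = 1) (h2 : Q' * Q = 1) {d : Fin N → F}
    (hT : (bc T : Matrix (Fin N) (Fin N) F) = Q * Matrix.diagonal d * Q') :
    CR ({T} : Set (Matrix (Fin N) (Fin N) K)) := by
  classical
  set c := T.charpoly with hc
  have hc0 : c ≠ 0 := T.charpoly_monic.ne_zero
  have hcd : ∀ j, aeval (d j) c = 0 := by
    have e1 : (bc (aeval T c) : Matrix (Fin N) (Fin N) F) = 0 := by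
      rw [hc, Matrix.aeval_self_charpoly, map_zero]
    rw [bc_aeval, hT, aeval_conj h1 h2] at e1
    have e2 : Matrix.diagonal (fun j => aeval (d j) c) = 0 := by
      calc Matrix.diagonal (fun j => aeval (d j) c) =
          (Q' * Q) * Matrix.diagonal (fun j => aeval (d j) c) * (Q' * Q) := by
            rw [h2, one_mul, mul_one]
        _ = Q' * (Q * Matrix.diagonal (fun j => aeval (d j) c) * Q') * Q := by
            simp only [mul_assoc]
        _ = 0 := by rw [e1, mul_zero, zero_mul]
    intro j
    have e3 := congrFun (congrFun e2 j) j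
    rwa [Matrix.diagonal_apply_eq] at e3
  set q := UniqueFactorizationMonoid.radical c with hq
  have hqs : Squarefree q := UniqueFactorizationMonoid.squarefree_radical
  have hqd : ∀ j, aeval (d j) q = 0 := by
    intro j
    have halg : IsIntegral K (d j) := Algebra.IsIntegral.isIntegral (d j)
    have e1 : minpoly K (d j) ∣ c := minpoly.dvd K _ (hcd j)
    have e2 : minpoly K (d j) ∣ q :=
      (UniqueFactorizationMonoid.dvd_radical_iff_of_irreducible (minpoly.irreducible halg) hc0).2 e1
    exact (minpoly.dvd_iff).1 e2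
  have hqT : aeval T q = 0 := by
    have e1 : (bc (aeval T q) : Matrix (Fin N) (Fin N) F) = 0 := by
      rw [bc_aeval, hT, aeval_conj h1 h2]
      have e2 : (fun j => aeval (d j) q) = 0 := funext hqd
      rw [e2, Matrix.diagonal_zero', mul_zero, zero_mul]
    ext i j
    have e2 := congrFun (congrFun e1 i) j
    rw [bc_apply, Matrix.zero_apply] at e2
    rw [Matrix.zero_apply]
    exact (algebraMap K F).injective (by rw [e2, map_zero])
  apply CR_of_isSemisimple
  refine Module.End.isSemisimple_of_squarefree_aeval_eq_zero hqs ?_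
  have e1 : aeval (Matrix.toLinAlgEquiv' T) q = Matrix.toLinAlgEquiv' (aeval T q) :=
    Polynomial.aeval_algHom_apply (Matrix.toLinAlgEquiv' : Matrix (Fin N) (Fin N) K ≃ₐ[K] _) T q
  rw [hqT, map_zero] at e1
  exact e1

end poly

section tens

variable {n : ℕ} {K : Type} [Field K] [CharZero K]

theorem tpm_diagonal {F : Type} [Field F] (m : ℕ) (d : Fin n → F) :
    tpm m (Matrix.diagonal d) =
      Matrix.diagonal fun j : Fin (n ^ m) => ∏ i, d (finFunctionFinEquiv.symm j i) := by
  ext a b
  obtain ⟨f, rfl⟩ := finFunctionFinEquiv.surjective a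
  obtain ⟨g, rfl⟩ := finFunctionFinEquiv.surjective b
  rw [tpm_apply, Matrix.diagonal_apply]
  by_cases h : f = g
  · rw [h, if_pos rfl, Equiv.symm_apply_apply]
    exact Finset.prod_congr rfl fun i _ => Matrix.diagonal_apply_eq _ _
  · rw [if_neg (fun h' => h (finFunctionFinEquiv.injective h'))]
    obtain ⟨i, hi⟩ := Function.ne_iff.1 h
    exact Finset.prod_eq_zero (Finset.mem_univ i) (Matrix.diagonal_apply_ne _ hi)

/-- tensor powers of semisimple matrices are semisimple -/
theorem CR_tpm (m : ℕ) {M : Matrix (Fin n) (Fin n) K}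
    (h : CR ({M} : Set (Matrix (Fin n) (Fin n) K))) :
    CR ({tpm m M} : Set (Matrix (Fin (n ^ m)) (Fin (n ^ m)) K)) := by
  let F := AlgebraicClosure K
  obtain ⟨Q, Q', d, h1, h2, hM⟩ := exists_diag (CR_bc (F := F) h)
  have e1 : (bc (tpm m M) : Matrix (Fin (n ^ m)) (Fin (n ^ m)) F) = tpm m (bc M) :=
    (tpm_map m (algebraMap K F) M).symm
  refine CR_of_diag (F := F) (Q := tpm m Q) (Q' := tpm m Q') (by rw [← tpm_mul, h1, tpm_one])
    (by rw [← tpm_mul, h2, tpm_one])
    (d := fun j : Fin (n ^ m) => ∏ i, d (finFunctionFinEquiv.symm j i)) ?_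
  rw [e1, hM, tpm_mul, tpm_mul, tpm_diagonal]

end tens

end Pool.Agent.H850.MT2
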