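import Pool.Agent.H850.OL.Arith
import Pool.Graph.R_pool_sql_team_seeded_9f66d723.W5h2.SL.Core
import Pool.Graph.R_seed8.TH658.Eq.Newt

/-!
# Tensor powers of representations over the p-adic integers
-/

set_option autoImplicit false
set_option linter.unusedSectionVars false

namespace Pool.Agent.H850.MT2

open Pool.Agent.H850.TF Pool.Agent.H850.RG

section algebra

variable {R : Type} [CommRing R] {n : ℕ}

/-- the tensor power of a matrix, indexed by functions -/
def tpf (m : ℕ) (A : Matrix (Fin n) (Fin n) R) : Matrix (Fin m → Fin n) (Fin m → Fin n) R :=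
  Matrix.of fun f g => ∏ i, A (f i) (g i)

theorem tpf_apply (m : ℕ) (A : Matrix (Fin n) (Fin n) R) (f g : Fin m → Fin n) :
    tpf m A f g = ∏ i, A (f i) (g i) := rfl

theorem tpf_mul (m : ℕ) (A B : Matrix (Fin n) (Fin n) R) : tpf m (A * B) = tpf m A * tpf m B := by
  ext f g
  rw [tpf_apply, Matrix.mul_apply]
  simp only [Matrix.mul_apply]
  rw [Finset.prod_univ_sum, Fintype.piFinset_univ]
  refine Finset.sum_congr rfl fun h _ => ?_
  rw [tpf_apply, tpf_apply, Finset.prod_mul_distrib]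

theorem tpf_one (m : ℕ) : tpf m (1 : Matrix (Fin n) (Fin n) R) = 1 := by
  ext f g
  rw [tpf_apply, Matrix.one_apply]
  by_cases h : f = g
  · rw [if_pos h]
    refine Finset.prod_eq_one fun i _ => ?_
    rw [h, Matrix.one_apply_eq]
  · rw [if_neg h]
    obtain ⟨i, hi⟩ := Function.ne_iff.1 h
    exact Finset.prod_eq_zero (Finset.mem_univ i) (Matrix.one_apply_ne hi)

theorem tpf_trace (m : ℕ) (A : Matrix (Fin n) (Fin n) R) : (tpf m A).trace = A.trace ^ m := by
  unfold Matrix.trace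
  rw [show (∑ i, A.diag i) ^ m = ∏ _j : Fin m, ∑ i, A.diag i by
    rw [Finset.prod_const, Finset.card_univ, Fintype.card_fin]]
  rw [Finset.prod_univ_sum, Fintype.piFinset_univ]
  rfl

theorem tpf_transpose (m : ℕ) (A : Matrix (Fin n) (Fin n) R) :
    tpf m A.transpose = (tpf m A).transpose := rfl

theorem tpf_smul (m : ℕ) (c : R) (A : Matrix (Fin n) (Fin n) R) :
    tpf m (c • A) = c ^ m • tpf m A := by
  ext f g
  rw [tpf_apply, Matrix.smul_apply, tpf_apply]
  simp only [Matrix.smul_apply, smul_eq_mul]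
  rw [Finset.prod_mul_distrib, Finset.prod_const, Finset.card_univ, Fintype.card_fin]

theorem tpf_map (m : ℕ) {S : Type} [CommRing S] (φ : R →+* S) (A : Matrix (Fin n) (Fin n) R) :
    tpf m (A.map φ) = (tpf m A).map φ := by
  ext f g
  rw [tpf_apply, Matrix.map_apply, tpf_apply, map_prod]
  rfl

/-- the tensor power of a matrix -/
def tpm (m : ℕ) (A : Matrix (Fin n) (Fin n) R) : Matrix (Fin (n ^ m)) (Fin (n ^ m)) R :=
  Matrix.reindex finFunctionFinEquiv finFunctionFinEquiv (tpf m A)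

theorem tpm_apply (m : ℕ) (A : Matrix (Fin n) (Fin n) R) (f g : Fin m → Fin n) :
    tpm m A (finFunctionFinEquiv f) (finFunctionFinEquiv g) = ∏ i, A (f i) (g i) := by
  unfold tpm
  rw [Matrix.reindex_apply, Matrix.submatrix_apply, Equiv.symm_apply_apply,
    Equiv.symm_apply_apply, tpf_apply]

theorem tpm_mul (m : ℕ) (A B : Matrix (Fin n) (Fin n) R) : tpm m (A * B) = tpm m A * tpm m B := by
  unfold tpm
  rw [tpf_mul, Matrix.reindex_apply, Matrix.reindex_apply, Matrix.reindex_apply]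
  rw [Matrix.submatrix_mul_equiv]

theorem tpm_one (m : ℕ) : tpm m (1 : Matrix (Fin n) (Fin n) R) = 1 := by
  unfold tpm
  rw [tpf_one, Matrix.reindex_apply, Matrix.submatrix_one_equiv]

theorem tpm_pow (m : ℕ) (A : Matrix (Fin n) (Fin n) R) (k : ℕ) : tpm m (A ^ k) = tpm m A ^ k := by
  induction k with
  | zero => rw [pow_zero, pow_zero, tpm_one]
  | succ k ih => rw [pow_succ, pow_succ, tpm_mul, ih]

theorem tpm_trace (m : ℕ) (A : Matrix (Fin n) (Fin n) R) : (tpm m A).trace = A.trace ^ m := by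
  rw [← tpf_trace]
  unfold tpm Matrix.trace
  rw [← finFunctionFinEquiv.sum_comp]
  refine Finset.sum_congr rfl fun f _ => ?_
  rw [Matrix.diag_apply, Matrix.reindex_apply, Matrix.submatrix_apply, Equiv.symm_apply_apply,
    Matrix.diag_apply]

theorem tpm_map (m : ℕ) {S : Type} [CommRing S] (φ : R →+* S) (A : Matrix (Fin n) (Fin n) R) :
    tpm m (A.map φ) = (tpm m A).map φ := by
  unfold tpm
  rw [tpf_map]
  rfl

/-- the traces of the powers are determined by the characteristic polynomial -/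
theorem trace_pow_eq {K : Type} [Field K] [CharZero K] {ι : Type} [Fintype ι] [DecidableEq ι]
    (A B : Matrix ι ι K) (h : A.charpoly = B.charpoly) (k : ℕ) :
    (A ^ k).trace = (B ^ k).trace := by
  have hr : A.charpolyRev = B.charpolyRev := by
    rw [← Matrix.reverse_charpoly, ← Matrix.reverse_charpoly, h]
  induction k using Nat.strong_induction_on with
  | _ k ih =>
    rcases k with _ | k
    · rw [pow_zero, pow_zero]
    · have h1 := Pool.Agent.TH658.Eq.newton A k
      have h2 := Pool.Agent.TH658.Eq.newton B k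
      rw [hr, h2, neg_inj, Finset.Nat.sum_antidiagonal_eq_sum_range_succ_mk,
        Finset.Nat.sum_antidiagonal_eq_sum_range_succ_mk, Nat.succ_eq_add_one,
        Finset.sum_range_succ', Finset.sum_range_succ'] at h1
      have h3 : ∀ i ∈ Finset.range k, B.charpolyRev.coeff (i + 1) * (B ^ (k - (i + 1) + 1)).trace =
          B.charpolyRev.coeff (i + 1) * (A ^ (k - (i + 1) + 1)).trace := by
        intro i hi
        rw [Finset.mem_range] at hi
        rw [ih (k - (i + 1) + 1) (by omega)]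
      rw [Finset.sum_congr rfl h3] at h1
      have h4 := add_left_cancel h1
      have h5 : B.charpolyRev.coeff 0 = 1 := by
        rw [Polynomial.coeff_zero_eq_eval_zero, Matrix.eval_charpolyRev]
      simp only [h5, one_mul, Nat.sub_zero] at h4
      exact h4.symm

/-- every monic integral polynomial is the characteristic polynomial of an integral matrix -/
theorem exists_companion {P : Polynomial ℤ} (hP : P.Monic) :
    ∃ C : Matrix (Fin P.natDegree) (Fin P.natDegree) ℤ, C.charpoly = P := by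
  refine ⟨Algebra.leftMulMatrix (AdjoinRoot.powerBasis' hP).basis
    (AdjoinRoot.powerBasis' hP).gen, ?_⟩
  have h1 := charpoly_leftMulMatrix (AdjoinRoot.powerBasis' hP)
  refine Eq.trans h1 (Eq.symm ?_)
  rw [AdjoinRoot.powerBasis'_gen]
  refine minpoly.unique' ℤ _ hP ?_ fun q hq => ?_
  · rw [AdjoinRoot.aeval_eq, AdjoinRoot.mk_self]
  · by_cases h0 : q = 0
    · exact Or.inl h0
    · right
      rw [AdjoinRoot.aeval_eq, Ne, AdjoinRoot.mk_eq_zero]
      exact hP.not_dvd_of_degree_lt h0 hq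

/-- the polynomial of the tensor power -/
theorem exists_tensor_poly (n m : ℕ) (P : Polynomial ℤ) : ∃ Q : Polynomial ℤ,
    ∀ (K : Type) [Field K] [CharZero K] (A : Matrix (Fin n) (Fin n) K),
      A.charpoly = P.map (algebraMap ℤ K) → (tpm m A).charpoly = Q.map (algebraMap ℤ K) := by
  classical
  by_cases h : P.Monic ∧ P.natDegree = n
  · obtain ⟨hP, rfl⟩ := h
    obtain ⟨C, hC⟩ := exists_companion hP
    refine ⟨(tpm m C).charpoly, fun K _ _ A hA => ?_⟩
    rw [← Matrix.charpoly_map, ← tpm_map]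
    apply Pool.Agent.TH658.Eq.charpoly_eq_of_traces
    intro k
    rw [← tpm_pow, ← tpm_pow, tpm_trace, tpm_trace]
    congr 1
    apply trace_pow_eq
    rw [hA, Matrix.charpoly_map, hC]
  · refine ⟨0, fun K _ _ A hA => ?_⟩
    exfalso
    apply h
    have hinj : Function.Injective (algebraMap ℤ K) := (algebraMap ℤ K).injective_int
    have h1 : (P.map (algebraMap ℤ K)).Monic := hA ▸ A.charpoly_monic
    refine ⟨?_, ?_⟩
    · exact Polynomial.monic_of_injective hinj h1
    · rw [← Polynomial.natDegree_map_eq_of_injective hinj, ← hA,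
        Matrix.charpoly_natDegree_eq_dim, Fintype.card_fin]

end algebra

section tensor

variable {n : ℕ} {p : ℕ} [Fact p.Prime] {Γ : Type} [Group Γ]

/-- the tensor power of a representation -/
noncomputable def tp (m : ℕ) (ρ : Γ →* GL (Fin n) ℤ_[p]) : Γ →* GL (Fin (n ^ m)) ℤ_[p] :=
  MonoidHom.toHomUnits
    { toFun := fun σ => tpm m (ρ σ : Matrix (Fin n) (Fin n) ℤ_[p])
      map_one' := by
        rw [map_one, Units.val_one, tpm_one]
      map_mul' := fun σ τ => by
        rw [map_mul, Units.val_mul, tpm_mul] }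

theorem tp_val (m : ℕ) (ρ : Γ →* GL (Fin n) ℤ_[p]) (σ : Γ) :
    (tp m ρ σ : Matrix (Fin (n ^ m)) (Fin (n ^ m)) ℤ_[p]) =
      tpm m (ρ σ : Matrix (Fin n) (Fin n) ℤ_[p]) := rfl

theorem rat_tp (m : ℕ) (ρ : Γ →* GL (Fin n) ℤ_[p]) (σ : Γ) :
    TF.rat (tp m ρ) σ = tpm m (TF.rat ρ σ) :=
  (tpm_map m (algebraMap ℤ_[p] ℚ_[p]) (ρ σ : Matrix (Fin n) (Fin n) ℤ_[p])).symm

theorem tp_eq_one (m : ℕ) {ρ : Γ →* GL (Fin n) ℤ_[p]} {σ : Γ} (h : ρ σ = 1) : tp m ρ σ = 1 := by
  apply Units.ext
  rw [tp_val, h, Units.val_one, tpm_one, Units.val_one]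

theorem continuous_tp [TopologicalSpace Γ] (m : ℕ) {ρ : Γ →* GL (Fin n) ℤ_[p]}
    (hρ : Continuous fun σ => (ρ σ : Matrix (Fin n) (Fin n) ℤ_[p])) :
    Continuous fun σ => (tp m ρ σ : Matrix (Fin (n ^ m)) (Fin (n ^ m)) ℤ_[p]) := by
  refine continuous_matrix fun i j => ?_
  obtain ⟨f, rfl⟩ := finFunctionFinEquiv.surjective i
  obtain ⟨g, rfl⟩ := finFunctionFinEquiv.surjective j
  have h1 : (fun σ => (tp m ρ σ : Matrix (Fin (n ^ m)) (Fin (n ^ m)) ℤ_[p])
      (finFunctionFinEquiv f) (finFunctionFinEquiv g)) =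
      fun σ => ∏ i, (ρ σ : Matrix (Fin n) (Fin n) ℤ_[p]) (f i) (g i) := by
    funext σ
    rw [tp_val, tpm_apply]
  rw [h1]
  exact continuous_finsetProd _ fun i _ => hρ.matrix_elem (f i) (g i)

theorem Pol_tp (m : ℕ) (ρ : Γ →* GL (Fin n) ℤ_[p]) : Pol (tp m ρ) ≤ Pol ρ := by
  have key : ∀ (a : Γ → Γ), (∀ i j, (fun σ => TF.rat ρ (a σ) i j) ∈ Pol ρ) →
      ∀ i j, (fun σ => TF.rat (tp m ρ) (a σ) i j) ∈ Pol ρ := by
    intro a ha i j
    obtain ⟨f, rfl⟩ := finFunctionFinEquiv.surjective i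
    obtain ⟨g, rfl⟩ := finFunctionFinEquiv.surjective j
    have h1 : (fun σ => TF.rat (tp m ρ) (a σ) (finFunctionFinEquiv f) (finFunctionFinEquiv g)) =
        ∏ i, fun σ => TF.rat ρ (a σ) (f i) (g i) := by
      funext σ
      rw [rat_tp, tpm_apply, Finset.prod_apply]
    rw [h1]
    exact Subalgebra.prod_mem _ fun i _ => ha _ _
  apply Algebra.adjoin_le
  rintro D (⟨i, j, rfl⟩ | ⟨i, j, rfl⟩)
  · exact key (fun σ => σ) (fun i j => Algebra.subset_adjoin (Or.inl ⟨i, j, rfl⟩)) i j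
  · exact key (fun σ => σ⁻¹) (fun i j => Algebra.subset_adjoin (Or.inr ⟨i, j, rfl⟩)) i j

theorem connOn_tp [TopologicalSpace Γ] (m : ℕ) {ρ : Γ →* GL (Fin n) ℤ_[p]} {U : Subgroup Γ}
    (h : ConnOn ρ U) : ConnOn (tp m ρ) U :=
  fun D hD V hV hDV u hu => h D (Pol_tp m ρ hD) V hV hDV u hu

end tensor

end Pool.Agent.H850.MT2
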