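import Mathlib

/-!
# Multiplicative relations between Weil numbers: finitely many types
-/

set_option autoImplicit false
set_option linter.unusedSectionVars false

namespace Pool.Agent.H850.MT2

open NumberField IsDedekindDomain WithZero

section core

variable {E : Type} [Field E] [NumberField E]

/-- an algebraic integer all of whose absolute values are `p ^ (w / 2)` divides a power of `p` -/
theorem dvd_pow_of_weight {p : ℕ} {w : ℕ} (x : 𝓞 E)
    (h : ∀ σ : E →+* ℂ, ‖σ (x : E)‖ ^ 2 = (p : ℝ) ^ w) :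
    x ∣ (p : 𝓞 E) ^ (w * Module.finrank ℚ E) := by
  have h1 : ((Ideal.absNorm (Ideal.span {x}) : ℕ) : 𝓞 E) ∈ Ideal.span {x} := Ideal.absNorm_mem _
  rw [Ideal.mem_span_singleton] at h1
  have h2 : ((Ideal.absNorm (Ideal.span {x}) : ℕ) : ℝ) ^ 2 = (p : ℝ) ^ (w * Module.finrank ℚ E) := by
    have h3 : ((Ideal.absNorm (Ideal.span {x}) : ℕ) : ℝ) = |((Algebra.norm ℚ (x : E) : ℚ) : ℝ)| := by
      rw [Ideal.absNorm_span_singleton, Nat.cast_natAbs, Int.cast_abs]
      congr 1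
      rw [← Algebra.coe_norm_int]
      norm_cast
    have h4 := InfinitePlace.prod_eq_abs_norm (x : E)
    rw [h3, ← Rat.cast_abs, ← h4, ← Finset.prod_pow]
    have h5 : ∀ v : InfinitePlace E, (v (x : E) ^ v.mult) ^ 2 = ((p : ℝ) ^ w) ^ v.mult := by
      intro v
      rw [← pow_mul, mul_comm, pow_mul, ← h v.embedding]
      congr 2
      exact (InfinitePlace.norm_embedding_eq v (x : E)).symm
    rw [Finset.prod_congr rfl fun v _ => h5 v, Finset.prod_pow_eq_pow_sum, InfinitePlace.sum_mult_eq,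
      ← pow_mul]
  have h3 : (Ideal.absNorm (Ideal.span {x}) : ℕ) ^ 2 = p ^ (w * Module.finrank ℚ E) := by
    exact_mod_cast h2
  have h4 : ((Ideal.absNorm (Ideal.span {x}) : ℕ) : 𝓞 E) ∣ (p : 𝓞 E) ^ (w * Module.finrank ℚ E) := by
    rw [← Nat.cast_pow, ← h3, Nat.cast_pow, sq]
    exact dvd_mul_right _ _
  exact h1.trans h4

/-- the exponent of a prime ideal in a prime number is bounded by the degree -/
theorem exp_le_val {p : ℕ} (hp : p.Prime) (v : HeightOneSpectrum (𝓞 E))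
    (hv : (p : 𝓞 E) ∈ v.asIdeal) :
    exp (-(Module.finrank ℚ E : ℤ)) ≤ v.intValuation (p : 𝓞 E) := by
  rw [HeightOneSpectrum.exp_le_intValuation_iff_emultiplicity_le, ← ENat.lt_natCast_add_one_iff,
    ← ENat.natCast_one, ← ENat.natCast_add, emultiplicity_lt_iff_not_dvd]
  intro h
  have h1 : Ideal.absNorm (v.asIdeal ^ (Module.finrank ℚ E + 1)) ∣
      Ideal.absNorm (Ideal.span {((p : ℕ) : 𝓞 E)}) :=
    Ideal.absNorm_dvd_absNorm_of_le (Ideal.le_of_dvd h)
  rw [map_pow, Ideal.absNorm_span_natCast, RingOfIntegers.rank] at h1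
  have h2 : Ideal.absNorm v.asIdeal ∣ p ^ Module.finrank ℚ E := by
    have h3 : Ideal.absNorm v.asIdeal ∣ Ideal.absNorm (Ideal.span {((p : ℕ) : 𝓞 E)}) :=
      Ideal.absNorm_dvd_absNorm_of_le (by
        rw [Ideal.span_singleton_le_iff_mem]
        exact hv)
    rwa [Ideal.absNorm_span_natCast, RingOfIntegers.rank] at h3
  obtain ⟨f, hf, hf2⟩ := (Nat.dvd_prime_pow hp).1 h2
  have h3 : f ≠ 0 := by
    rintro rfl
    rw [pow_zero, Ideal.absNorm_eq_one_iff] at hf2
    exact v.isPrime.ne_top hf2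
  rw [hf2, ← pow_mul] at h1
  have h4 := (Nat.pow_dvd_pow_iff_le_right hp.one_lt).1 h1
  have h5 : Module.finrank ℚ E + 1 ≤ f * (Module.finrank ℚ E + 1) :=
    Nat.le_mul_of_pos_left _ (Nat.pos_of_ne_zero h3)
  omega

theorem prod_exp {m : ℕ} (r : Fin m → ℕ) :
    ∏ i, (exp (-(r i : ℤ)) : ℤᵐ⁰) = exp (-((∑ i, r i : ℕ) : ℤ)) := by
  induction m with
  | zero => simp
  | succ m ih =>
    rw [Fin.prod_univ_succ, Fin.sum_univ_succ, ih, ← exp_add]
    congr 1
    push_cast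
    ring

/-- **Relations between Weil numbers have finitely many types.** -/
theorem exists_type (n B U : ℕ) : ∃ D : ℕ, ∀ (E : Type) [Field E] [NumberField E],
    Module.finrank ℚ E ≤ B → ∀ (p : ℕ), p.Prime → ∀ (lam : Fin n → E) (W : Fin n → ℕ),
    (∀ i, IsIntegral ℤ (lam i)) → (∀ i, W i ≤ U) →
    (∀ i (σ : E →+* ℂ), ‖σ (lam i)‖ ^ 2 = (p : ℝ) ^ W i) →
    ∃ S : Set (Fin n → Fin (D + 1)), ∀ (m : ℕ) (f g : Fin m → Fin n),
      (∃ k : ℕ, k ≠ 0 ∧ (∏ i, lam (f i)) ^ k = (∏ i, lam (g i)) ^ k) ↔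
        ∀ r ∈ S, ∑ i, (r (f i) : ℕ) = ∑ i, (r (g i) : ℕ) := by
  refine ⟨U * B * B + U, ?_⟩
  intro E _ _ hB p hp lam W hint hW hnorm
  set D := U * B * B + U with hD
  have hp0 : (0 : ℝ) < p := by exact_mod_cast hp.pos
  have hp1 : (1 : ℝ) < p := by exact_mod_cast hp.one_lt
  let x : Fin n → 𝓞 E := fun i => ⟨lam i, hint i⟩
  have hx : ∀ i, ((x i : 𝓞 E) : E) = lam i := fun i => rfl
  obtain ⟨σ₀⟩ : Nonempty (E →+* ℂ) := inferInstance
  have hlam0 : ∀ i, lam i ≠ 0 := by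
    intro i h0
    have h1 := hnorm i σ₀
    rw [h0, map_zero, norm_zero, zero_pow two_ne_zero] at h1
    exact (pow_pos hp0 _).ne h1
  have hx0 : ∀ i, x i ≠ 0 := by
    intro i h0
    apply hlam0 i
    rw [← hx, h0]
    rfl
  have hdvd : ∀ i, x i ∣ (p : 𝓞 E) ^ (W i * Module.finrank ℚ E) := fun i =>
    dvd_pow_of_weight (x i) (hnorm i)
  -- the valuations of the eigenvalues
  have hval : ∀ (v : HeightOneSpectrum (𝓞 E)) (i : Fin n), ∃ r : ℕ, r ≤ D ∧
      v.intValuation (x i) = exp (-(r : ℤ)) ∧ ((p : 𝓞 E) ∉ v.asIdeal → r = 0) := by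
    intro v i
    obtain ⟨r, hr⟩ : ∃ r : ℕ, v.intValuation (x i) = exp (-(r : ℤ)) :=
      ⟨_, v.intValuation_eq_exp_neg_multiplicity (hx0 i)⟩
    obtain ⟨c, hc⟩ := hdvd i
    have h1 : v.intValuation (p : 𝓞 E) ^ (W i * Module.finrank ℚ E) ≤ v.intValuation (x i) := by
      rw [← map_pow, hc, map_mul]
      exact mul_le_of_le_one_right' (v.intValuation_le_one c)
    by_cases hv : (p : 𝓞 E) ∈ v.asIdeal
    · refine ⟨r, ?_, hr, fun h => (h hv).elim⟩
      have h2 : exp (-(Module.finrank ℚ E : ℤ)) ^ (W i * Module.finrank ℚ E) ≤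
          exp (-(r : ℤ)) := by
        rw [← hr]
        exact (pow_le_pow_left' (exp_le_val hp v hv) _).trans h1
      rw [← exp_nsmul, exp_le_exp, nsmul_eq_mul] at h2
      push_cast at h2
      have h3 : (r : ℤ) ≤ (W i * Module.finrank ℚ E) * Module.finrank ℚ E := by linarith
      have h4 : r ≤ (W i * Module.finrank ℚ E) * Module.finrank ℚ E := by exact_mod_cast h3
      refine h4.trans ?_
      have h5 : (W i * Module.finrank ℚ E) * Module.finrank ℚ E ≤ U * B * B :=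
        Nat.mul_le_mul (Nat.mul_le_mul (hW i) hB) hB
      omega
    · have h2 : v.intValuation (p : 𝓞 E) = 1 := by
        rw [HeightOneSpectrum.intValuation_eq_one_iff_mem_primeCompl]
        exact hv
      rw [h2, one_pow] at h1
      have h3 : v.intValuation (x i) = 1 := le_antisymm (v.intValuation_le_one _) h1
      have h4 : r = 0 := by
        rw [hr, ← exp_zero, exp_inj] at h3
        omega
      exact ⟨r, by omega, hr, fun _ => h4⟩
  choose r hrD hr hr0 using hval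
  have hprod : ∀ (v : HeightOneSpectrum (𝓞 E)) (m : ℕ) (f : Fin m → Fin n),
      v.intValuation (∏ i, x (f i)) = exp (-((∑ i, r v (f i) : ℕ) : ℤ)) := by
    intro v m f
    rw [map_prod, Finset.prod_congr rfl fun i _ => hr v (f i)]
    exact prod_exp fun i => r v (f i)
  have habs : ∀ (σ : E →+* ℂ) (m : ℕ) (f : Fin m → Fin n),
      ‖σ (∏ i, lam (f i))‖ ^ 2 = (p : ℝ) ^ (∑ i, W (f i)) := by
    intro σ m f
    rw [map_prod, norm_prod, ← Finset.prod_pow, Finset.prod_congr rfl fun i _ => hnorm (f i) σ,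
      Finset.prod_pow_eq_pow_sum]
  have hcoe : ∀ (m : ℕ) (f : Fin m → Fin n),
      algebraMap (𝓞 E) E (∏ i, x (f i)) = ∏ i, lam (f i) := by
    intro m f
    rw [map_prod]
    rfl
  refine ⟨{s | (∀ i, (s i : ℕ) = W i) ∨ ∃ v : HeightOneSpectrum (𝓞 E), ∀ i, (s i : ℕ) = r v i}, ?_⟩
  intro m f g
  constructor
  · rintro ⟨k, hk, hfg⟩ s (hs | ⟨v, hs⟩)
    · rw [Finset.sum_congr rfl fun i _ => hs (f i), Finset.sum_congr rfl fun i _ => hs (g i)]
      have h0 : ∀ f : Fin m → Fin n, (p : ℝ) ^ (k * ∑ i, W (f i)) =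
          ‖σ₀ ((∏ i, lam (f i)) ^ k)‖ ^ 2 := by
        intro f
        have e1 := habs σ₀ m f
        calc (p : ℝ) ^ (k * ∑ i, W (f i)) = ((p : ℝ) ^ (∑ i, W (f i))) ^ k := by
              rw [mul_comm k, pow_mul]
          _ = (‖σ₀ (∏ i, lam (f i))‖ ^ 2) ^ k := by rw [e1]
          _ = _ := by rw [map_pow, norm_pow]; ring
      have h1 : (p : ℝ) ^ (k * ∑ i, W (f i)) = (p : ℝ) ^ (k * ∑ i, W (g i)) := by
        rw [h0, h0, hfg]
      have h2 := pow_right_injective₀ hp0 hp1.ne' h1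
      exact Nat.eq_of_mul_eq_mul_left (Nat.pos_of_ne_zero hk) h2
    · rw [Finset.sum_congr rfl fun i _ => hs (f i), Finset.sum_congr rfl fun i _ => hs (g i)]
      have h1 : (∏ i, x (f i)) ^ k = (∏ i, x (g i)) ^ k := by
        apply FaithfulSMul.algebraMap_injective (𝓞 E) E
        rw [map_pow, map_pow, hcoe, hcoe, hfg]
      have h2 := congrArg v.intValuation h1
      rw [map_pow, map_pow, hprod, hprod, ← exp_nsmul, ← exp_nsmul, exp_inj, nsmul_eq_mul,
        nsmul_eq_mul] at h2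
      have h3 : ((k : ℤ)) ≠ 0 := by exact_mod_cast hk
      have h4 := mul_left_cancel₀ h3 h2
      have h5 := neg_inj.1 h4
      exact_mod_cast h5
  · intro h
    have hy0 : ∀ (m : ℕ) (f : Fin m → Fin n), (∏ i, lam (f i)) ≠ 0 := fun m f =>
      Finset.prod_ne_zero_iff.2 fun i _ => hlam0 (f i)
    set z : E := (∏ i, lam (f i)) / ∏ i, lam (g i) with hz
    have hint : z ∈ (algebraMap (𝓞 E) E).range := by
      apply HeightOneSpectrum.mem_integers_of_valuation_le_one
      intro v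
      have h1 : ∑ i, r v (f i) = ∑ i, r v (g i) := by
        have h2 := h (fun i => ⟨r v i, Nat.lt_succ_of_le (hrD v i)⟩) (Or.inr ⟨v, fun i => rfl⟩)
        exact h2
      rw [hz, map_div₀, ← hcoe, ← hcoe]
      have h3 : ∀ y : 𝓞 E, v.valuation E (algebraMap (𝓞 E) E y) = v.intValuation y := fun y =>
        v.valuation_of_algebraMap y
      rw [h3, h3, hprod, hprod, h1, div_self (exp_ne_zero)]
    obtain ⟨y, hy⟩ := hint
    have hzi : IsIntegral ℤ z := hy ▸ y.isIntegral_coe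
    have hW' : ∑ i, W (f i) = ∑ i, W (g i) := by
      have h2 := h (fun i => ⟨W i, Nat.lt_succ_of_le ((hW i).trans (by omega))⟩)
        (Or.inl fun i => rfl)
      exact h2
    have hz1 : ∀ φ : E →+* ℂ, ‖φ z‖ = 1 := by
      intro φ
      have h1 : ‖φ z‖ ^ 2 = 1 := by
        rw [hz, map_div₀, norm_div, div_pow, habs, habs, hW', div_self (pow_pos hp0 _).ne']
      exact (pow_eq_one_iff_of_nonneg (norm_nonneg _) two_ne_zero).1 h1
    obtain ⟨k, hk, hk1⟩ := NumberField.Embeddings.pow_eq_one_of_norm_eq_one E ℂ hzi hz1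
    refine ⟨k, hk.ne', ?_⟩
    rw [hz, div_pow, div_eq_one_iff_eq (pow_ne_zero k (hy0 m g))] at hk1
    exact hk1

end core

end Pool.Agent.H850.MT2
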